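import Mathlib
import Pool.Agent.H366R3.Riem

set_option autoImplicit false

open Set Filter Topology Metric
open scoped ComplexConjugate Real

namespace Pool.Agent.H366R3.MB

open Pool.Agent.H366R3
open Pool.Agent.Helper859.Stk.Riemann
open Complex (I)

lemma bl_bl {a w : ℂ} (ha : ‖a‖ < 1) (hw : ‖w‖ < 1) : bl (-a) (bl a w) = w := by
  have h1 := bl_den_ne ha hw
  have h2 := bl_den_ne ha ha
  unfold bl at *
  rw [map_neg]
  have h5 := div_mul_cancel₀ (w - a) h1
  have h3 : 1 - -conj a * ((w - a) / (1 - conj a * w)) = (1 - conj a * a) / (1 - conj a * w) := by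
    rw [eq_div_iff h1]
    linear_combination conj a * h5
  rw [h3]
  have h4 : (w - a) / (1 - conj a * w) - -a = w * (1 - conj a * a) / (1 - conj a * w) := by
    rw [eq_div_iff h1]
    linear_combination h5
  rw [h4, div_div_div_cancel_right₀ h1, mul_div_cancel_right₀ _ h2]

lemma bl_bl' {a w : ℂ} (ha : ‖a‖ < 1) (hw : ‖w‖ < 1) : bl a (bl (-a) w) = w := by
  have := bl_bl (a := -a) (w := w) (by rwa [norm_neg]) hw
  rwa [neg_neg] at this

lemma bl_diff {a : ℂ} (ha : ‖a‖ < 1) : DifferentiableOn ℂ (bl a) (ball 0 1) := fun w hw =>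
  (bl_hasDerivAt ha (mem_ball_zero_iff.1 hw)).differentiableAt.differentiableWithinAt

lemma bl_maps {a : ℂ} (ha : ‖a‖ < 1) : MapsTo (bl a) (ball 0 1) (ball 0 1) := fun w hw =>
  mem_ball_zero_iff.2 (bl_norm_lt ha (mem_ball_zero_iff.1 hw))

/-- automorphisms of the disk -/
lemma aut_form {T S : ℂ → ℂ} (hT : DifferentiableOn ℂ T (ball 0 1))
    (hS : DifferentiableOn ℂ S (ball 0 1)) (mT : MapsTo T (ball 0 1) (ball 0 1))
    (mS : MapsTo S (ball 0 1) (ball 0 1)) (ST : ∀ z ∈ ball (0 : ℂ) 1, S (T z) = z)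
    (TS : ∀ z ∈ ball (0 : ℂ) 1, T (S z) = z) :
    ∃ a c : ℂ, ‖a‖ < 1 ∧ ‖c‖ = 1 ∧ ∀ z ∈ ball (0 : ℂ) 1, T z = c * bl a z := by
  have h0 : (0 : ℂ) ∈ ball (0 : ℂ) 1 := mem_ball_self one_pos
  set a := S 0 with ha
  have ha1 : ‖a‖ < 1 := mem_ball_zero_iff.1 (mS h0)
  have ha2 : ‖-a‖ < 1 := by rwa [norm_neg]
  set F : ℂ → ℂ := fun z => T (bl (-a) z) with hF
  set G : ℂ → ℂ := fun z => bl a (S z) with hG
  have hFd : DifferentiableOn ℂ F (ball 0 1) := hT.comp (bl_diff ha2) (bl_maps ha2)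
  have hGd : DifferentiableOn ℂ G (ball 0 1) := (bl_diff ha1).comp hS mS
  have hFm : MapsTo F (ball 0 1) (ball 0 1) := fun z hz => mT (bl_maps ha2 hz)
  have hGm : MapsTo G (ball 0 1) (ball 0 1) := fun z hz => bl_maps ha1 (mS hz)
  have hF0 : F 0 = 0 := by
    rw [hF]
    simp only
    rw [bl_zero, neg_neg, ha, TS 0 h0]
  have hG0 : G 0 = 0 := by
    rw [hG]
    simp only
    rw [← ha, bl_self]
  have hw : ((1 / 2 : ℂ)) ∈ ball (0 : ℂ) 1 := by
    rw [mem_ball_zero_iff]; norm_num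
  have hGF : G (F (1 / 2)) = 1 / 2 := by
    rw [hG, hF]
    simp only
    rw [ST _ (bl_maps ha2 hw), bl_bl' ha1 (mem_ball_zero_iff.1 hw)]
  have e1 : ‖F (1 / 2)‖ ≤ ‖(1 / 2 : ℂ)‖ :=
    schwarz_le hFd (fun z hz => ball_subset_closedBall (hFm hz)) hF0 hw
  have e2 : ‖(1 / 2 : ℂ)‖ ≤ ‖F (1 / 2)‖ := by
    have := schwarz_le hGd (fun z hz => ball_subset_closedBall (hGm hz)) hG0 (hFm hw)
    rwa [hGF] at this
  obtain ⟨c, hc, hE⟩ := schwarz_eq hFd (fun z hz => ball_subset_closedBall (hFm hz)) hF0 hw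
    (by norm_num) (le_antisymm e1 e2)
  refine ⟨a, c, ha1, hc, fun z hz => ?_⟩
  rw [← hE _ (bl_maps ha1 hz)]
  show T z = T (bl (-a) (bl a z))
  rw [bl_bl ha1 (mem_ball_zero_iff.1 hz)]

/-- a unimodular fixed point -/
lemma fixed_pt {a c : ℂ} (ha : ‖a‖ < 1) (hc : ‖c‖ = 1)
    (hfix : ∀ z ∈ ball (0 : ℂ) 1, c * bl a z ≠ z) :
    ∃ z1 : ℂ, ‖z1‖ = 1 ∧ conj a * z1 ^ 2 + (c - 1) * z1 - c * a = 0 := by
  have ha0 : a ≠ 0 := by
    rintro rfl
    exact hfix 0 (mem_ball_self one_pos) (by rw [bl_zero]; simp)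
  have hc0 : c ≠ 0 := norm_ne_zero_iff.1 (by rw [hc]; norm_num)
  have hca : conj a ≠ 0 := by rwa [ne_eq, map_eq_zero]
  have hcc : c * conj c = 1 := by
    rw [Complex.mul_conj, Complex.normSq_eq_norm_sq, hc]; simp
  obtain ⟨s, hs⟩ := IsAlgClosed.exists_pow_nat_eq (discrim (conj a) (c - 1) (-(c * a))) (n := 2)
    (by norm_num)
  obtain ⟨z1, hz1⟩ := exists_quadratic_eq_zero hca ⟨s, by rw [← hs]; ring⟩
  have hroot : conj a * z1 ^ 2 + (c - 1) * z1 - c * a = 0 := by linear_combination hz1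
  have hno : ∀ z : ℂ, conj a * z ^ 2 + (c - 1) * z - c * a = 0 → 1 ≤ ‖z‖ := by
    intro z hz
    by_contra hlt
    rw [not_le] at hlt
    have hden := bl_den_ne ha hlt
    apply hfix z (mem_ball_zero_iff.2 hlt)
    unfold bl
    rw [← mul_div_assoc, div_eq_iff hden]
    linear_combination hz
  have hz10 : z1 ≠ 0 := by
    rintro rfl
    apply mul_ne_zero hc0 ha0
    linear_combination -hroot
  have hcz : conj z1 ≠ 0 := by rwa [ne_eq, map_eq_zero]
  refine ⟨z1, le_antisymm ?_ (hno z1 hroot), hroot⟩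
  have h2 : conj a * ((conj z1)⁻¹) ^ 2 + (c - 1) * (conj z1)⁻¹ - c * a = 0 := by
    have h3 : conj (conj a * z1 ^ 2 + (c - 1) * z1 - c * a) = 0 := by rw [hroot, map_zero]
    rw [map_sub, map_add, map_mul, map_mul, map_mul, map_pow, map_sub, map_one, Complex.conj_conj] at h3
    field_simp
    linear_combination (-c) * h3 + (conj z1 ^ 2 * 0 + conj z1 - conj a) * hcc
  have h3 := hno _ h2
  rw [norm_inv, Complex.norm_conj] at h3
  have h4 : 0 < ‖z1‖ := norm_pos_iff.2 hz10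
  rw [one_le_inv₀ h4] at h3
  exact h3

/-- Cayley transform -/
noncomputable def mm (z1 z : ℂ) : ℂ := I * (z1 + z) / (z1 - z)

lemma mm_im {z1 z : ℂ} (h1 : ‖z1‖ = 1) (hz : ‖z‖ < 1) : 0 < (mm z1 z).im := by
  have hne : z1 - z ≠ 0 := by
    intro h
    rw [sub_eq_zero.1 h] at h1; linarith
  have h2 : (mm z1 z).im = (1 - ‖z‖ ^ 2) / ‖z1 - z‖ ^ 2 := by
    have h3 : z1.re ^ 2 + z1.im ^ 2 = 1 := by
      have := Complex.normSq_eq_norm_sq z1
      rw [h1, Complex.normSq_apply] at this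
      linarith
    unfold mm
    rw [← Complex.normSq_eq_norm_sq, ← Complex.normSq_eq_norm_sq, Complex.div_im, ← sub_div]
    congr 1
    rw [Complex.normSq_apply z]
    simp only [Complex.mul_im, Complex.mul_re, Complex.I_re, Complex.I_im, Complex.add_re,
      Complex.add_im, Complex.sub_re, Complex.sub_im]
    linear_combination h3
  rw [h2]
  have h4 : 0 < ‖z1 - z‖ := norm_pos_iff.2 hne
  have h5 := norm_nonneg z
  apply div_pos _ (by positivity)
  nlinarith

/-- the inverse Cayley transform -/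
lemma mm_surj {z1 w : ℂ} (h1 : ‖z1‖ = 1) (hw : 0 < w.im) : ∃ z : ℂ, ‖z‖ < 1 ∧ mm z1 z = w := by
  have hne : w + I ≠ 0 := by
    intro h
    have := congrArg Complex.im h
    simp at this
    linarith
  have hz1 : z1 ≠ 0 := norm_ne_zero_iff.1 (by rw [h1]; norm_num)
  refine ⟨z1 * ((w - I) / (w + I)), ?_, ?_⟩
  · rw [norm_mul, h1, one_mul, norm_div, div_lt_one (norm_pos_iff.2 hne)]
    rw [← abs_norm (w - I), ← abs_norm (w + I), ← sq_lt_sq, ← Complex.normSq_eq_norm_sq,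
      ← Complex.normSq_eq_norm_sq, Complex.normSq_apply, Complex.normSq_apply]
    simp
    nlinarith
  · unfold mm
    have e1 : z1 + z1 * ((w - I) / (w + I)) = z1 * (2 * w / (w + I)) := by
      field_simp; ring
    have e2 : z1 - z1 * ((w - I) / (w + I)) = z1 * (2 * I / (w + I)) := by
      field_simp; ring
    rw [e1, e2]
    have hI : I ≠ 0 := Complex.I_ne_zero
    field_simp

lemma mm_inj {z1 z w : ℂ} (h1 : ‖z1‖ = 1) (hz : ‖z‖ < 1) (hw : ‖w‖ < 1)
    (h : mm z1 z = mm z1 w) : z = w := by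
  have hne : z1 - z ≠ 0 := by
    intro h
    rw [sub_eq_zero.1 h] at h1; linarith
  have hne' : z1 - w ≠ 0 := by
    intro h
    rw [sub_eq_zero.1 h] at h1; linarith
  have hz1 : z1 ≠ 0 := norm_ne_zero_iff.1 (by rw [h1]; norm_num)
  unfold mm at h
  rw [div_eq_div_iff hne hne'] at h
  have h2 : (2 * I * z1) * (z - w) = 0 := by linear_combination h
  rcases mul_eq_zero.1 h2 with h3 | h3
  · exfalso
    rcases mul_eq_zero.1 h3 with h4 | h4
    · rcases mul_eq_zero.1 h4 with h5 | h5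
      · norm_num at h5
      · exact Complex.I_ne_zero h5
    · exact hz1 h4
  · exact sub_eq_zero.1 h3

lemma mm_diff {z1 : ℂ} (h1 : ‖z1‖ = 1) : DifferentiableOn ℂ (mm z1) (ball 0 1) := by
  intro z hz
  rw [mem_ball_zero_iff] at hz
  have hne : z1 - z ≠ 0 := by
    intro h
    rw [sub_eq_zero.1 h] at h1; linarith
  apply DifferentiableAt.differentiableWithinAt
  unfold mm
  apply DifferentiableAt.div
  · fun_prop
  · fun_prop
  · exact hne

lemma alg_mm {z1 z κ k D E i : ℂ} (hz : z1 - z ≠ 0) (hk : k ≠ 0) (hD : D ≠ 0) (hE : E ≠ 0)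
    (R1 : D * k = κ + k - κ * k) (R2 : E * z1 = z1 - z + z * κ) :
    i * (2 * z1 - (z1 - z) * D / E) / ((z1 - z) * D / E) =
      κ * k / (D * k) * (i * (z1 + z) / (z1 - z)) + i * (k - κ) / (D * k) := by
  have e1 : i * (2 * z1 - (z1 - z) * D / E) / ((z1 - z) * D / E) =
      (i * (2 * z1 * E - (z1 - z) * D) * k) / ((z1 - z) * D * k) := by
    rw [div_eq_div_iff (div_ne_zero (mul_ne_zero hz hD) hE) (mul_ne_zero (mul_ne_zero hz hD) hk)]
    field_simp
  have e2 : κ * k / (D * k) * (i * (z1 + z) / (z1 - z)) + i * (k - κ) / (D * k) =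
      (κ * k * i * (z1 + z) + i * (k - κ) * (z1 - z)) / ((z1 - z) * D * k) := by
    rw [div_mul_div_comm, div_add_div _ _ (mul_ne_zero (mul_ne_zero hD hk) hz) (mul_ne_zero hD hk),
      div_eq_div_iff (mul_ne_zero (mul_ne_zero (mul_ne_zero hD hk) hz) (mul_ne_zero hD hk))
      (mul_ne_zero (mul_ne_zero hz hD) hk)]
    ring
  rw [e1, e2]
  congr 1
  linear_combination i * (2 * k * R2 - (z1 - z) * R1)

/-- in the half plane the automorphism is affine -/
lemma mm_affine {a c z1 : ℂ} (ha : ‖a‖ < 1) (hc : ‖c‖ = 1) (h1 : ‖z1‖ = 1)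
    (hroot : conj a * z1 ^ 2 + (c - 1) * z1 - c * a = 0) :
    ∃ μ β : ℝ, 0 < μ ∧ ∀ z : ℂ, ‖z‖ < 1 → mm z1 (c * bl a z) = μ * mm z1 z + β := by
  have hz1 : z1 ≠ 0 := norm_ne_zero_iff.1 (by rw [h1]; norm_num)
  have hzz : z1 * conj z1 = 1 := by
    rw [Complex.mul_conj, Complex.normSq_eq_norm_sq, h1]; simp
  set κ : ℂ := 1 - conj a * z1 with hκ
  have hκc : conj κ = 1 - a * conj z1 := by
    rw [hκ, map_sub, map_one, map_mul, Complex.conj_conj]
  have hκ0 : κ ≠ 0 := by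
    intro h
    have h2 : ‖conj a * z1‖ = 1 := by
      rw [show conj a * z1 = 1 by linear_combination -h, norm_one]
    rw [norm_mul, Complex.norm_conj, h1, mul_one] at h2
    linarith
  have hκc0 : conj κ ≠ 0 := by rwa [ne_eq, map_eq_zero]
  have hcκ : c * conj κ = κ := by
    have h2 : z1 * (c * conj κ) = z1 * κ := by
      rw [hκc, hκ]
      linear_combination hroot - (c * a) * hzz
    exact mul_left_cancel₀ hz1 h2
  set q : ℝ := 1 - ‖a‖ ^ 2 with hq
  have hq0 : 0 < q := by have := norm_nonneg a; nlinarith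
  have haa : a * conj a = ((‖a‖ ^ 2 : ℝ) : ℂ) := by
    rw [Complex.mul_conj, Complex.normSq_eq_norm_sq]
  have hqe : κ + conj κ - κ * conj κ = (q : ℂ) := by
    rw [hκc, hκ, hq, Complex.ofReal_sub, ← haa, Complex.ofReal_one]
    linear_combination (- a * conj a) * hzz
  set D : ℂ := c + conj a * z1 with hD
  have hDk : D * conj κ = (q : ℂ) := by
    have e : D = c + (1 - κ) := by rw [hD, hκ]; ring
    rw [e]
    linear_combination hcκ + hqe
  have hD0 : D ≠ 0 := by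
    intro h
    rw [h, zero_mul] at hDk
    exact hq0.ne (by exact_mod_cast hDk)
  refine ⟨‖κ‖ ^ 2 / q, 2 * κ.im / q, by positivity, fun z hz => ?_⟩
  have hd := bl_den_ne ha hz
  have hz1z : z1 - z ≠ 0 := by
    intro h
    rw [sub_eq_zero.1 h] at h1; linarith
  have hbl : ‖c * bl a z‖ < 1 := by rw [norm_mul, hc, one_mul]; exact bl_norm_lt ha hz
  have hz1T : z1 - c * bl a z ≠ 0 := by
    intro h
    rw [sub_eq_zero.1 h] at h1; linarith
  have hqc : (q : ℂ) ≠ 0 := by exact_mod_cast hq0.ne'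
  have hkk : κ * conj κ = ((‖κ‖ ^ 2 : ℝ) : ℂ) := by
    rw [Complex.mul_conj, Complex.normSq_eq_norm_sq]
  have him : I * (conj κ - κ) = ((2 * κ.im : ℝ) : ℂ) := by
    apply Complex.ext <;> simp
    ring
  -- the main identity
  have e1 : (z1 - c * bl a z) * (1 - conj a * z) = (z1 - z) * D := by
    unfold bl
    have : c * ((z - a) / (1 - conj a * z)) * (1 - conj a * z) = c * (z - a) := by
      rw [mul_assoc, div_mul_cancel₀ _ hd]
    rw [hD]
    linear_combination (-1 : ℂ) * this - hroot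
  have hX : z1 - c * bl a z = (z1 - z) * D / (1 - conj a * z) := by
    rw [eq_div_iff hd]; exact e1
  have hY : z1 + c * bl a z = 2 * z1 - (z1 - z) * D / (1 - conj a * z) := by
    rw [← hX]; ring
  have h5 := alg_mm (i := I) hz1z hκc0 hD0 hd (κ := κ) (by rw [hDk, ← hqe]) (by rw [hκ]; ring)
  unfold mm
  rw [hX, hY, h5, hDk, hkk, him]
  push_cast
  ring

end Pool.Agent.H366R3.MB
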