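import Mathlib

set_option autoImplicit false

open Set Filter Topology Metric MeasureTheory
open scoped ComplexConjugate

namespace Pool.Agent.H366R3.MB

open Complex (I)

/-- the logarithm of the derivative of the generating function -/
noncomputable def PP (ζ : ℂ) : ℂ := ζ + (1 / 32 : ℂ) * Complex.sinh (2 * ζ)

lemma PP_diff : Differentiable ℂ PP := by
  unfold PP
  intro z
  have : DifferentiableAt ℂ (fun ζ : ℂ => Complex.sinh (2 * ζ)) z :=
    (Complex.differentiable_sinh).differentiableAt.comp z (by fun_prop)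
  exact differentiableAt_id.add (this.const_mul _)

lemma PP_add (ζ : ℂ) : PP (ζ + Real.pi * I) = PP ζ + Real.pi * I := by
  unfold PP
  have : Complex.sinh (2 * (ζ + Real.pi * I)) = Complex.sinh (2 * ζ) := by
    have : (2 : ℂ) * (ζ + Real.pi * I) = 2 * ζ + 2 * Real.pi * I := by ring
    rw [this, Complex.sinh_add, Complex.sinh_mul_I, Complex.cosh_mul_I]
    have h1 : Complex.sin (2 * Real.pi) = 0 := by
      rw [Complex.sin_two_pi]
    rw [Complex.cos_two_pi, h1]; ring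
  rw [this]; ring

lemma PP_conj (ζ : ℂ) : PP (-conj ζ) = -conj (PP ζ) := by
  unfold PP
  rw [map_add, map_mul, ← Complex.sinh_conj, map_mul]
  have h1 : (2 : ℂ) * -conj ζ = -(2 * conj ζ) := by ring
  rw [h1, Complex.sinh_neg]
  have h2 : conj (1 / 32 : ℂ) = 1 / 32 := by
    rw [map_div₀, map_one, map_ofNat]
  have h3 : conj (2 : ℂ) = 2 := map_ofNat _ 2
  rw [h2, h3]; ring

lemma exists_Gam : ∃ Γ : ℂ → ℂ, (∀ ζ, HasDerivAt Γ (Complex.exp (PP ζ)) ζ) ∧
    ∀ ζ, Γ (ζ + Real.pi * I) = -Γ ζ := by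
  have hd : Differentiable ℂ fun ζ => Complex.exp (PP ζ) := PP_diff.cexp
  obtain ⟨F, hF⟩ := hd.isExactOn_univ
  have hF' : ∀ ζ, HasDerivAt F (Complex.exp (PP ζ)) ζ := fun ζ => hF ζ (mem_univ _)
  have h1 : ∀ ζ, HasDerivAt (fun ζ => F (ζ + Real.pi * I) + F ζ) 0 ζ := by
    intro ζ
    have h2 := (hF' (ζ + Real.pi * I)).comp_add_const ζ (Real.pi * I)
    have h3 := h2.add (hF' ζ)
    have h4 : Complex.exp (PP (ζ + Real.pi * I)) + Complex.exp (PP ζ) = 0 := by
      rw [PP_add, Complex.exp_add, Complex.exp_pi_mul_I]; ring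
    rw [h4] at h3
    exact h3
  have h2 : ∀ ζ, F (ζ + Real.pi * I) + F ζ = F (0 + Real.pi * I) + F 0 := by
    intro ζ
    exact is_const_of_deriv_eq_zero (fun ζ => (h1 ζ).differentiableAt) (fun ζ => (h1 ζ).deriv) ζ 0
  set C := F (0 + Real.pi * I) + F 0 with hC
  refine ⟨fun ζ => F ζ - C / 2, fun ζ => (hF' ζ).sub_const _, fun ζ => ?_⟩
  simp only
  linear_combination h2 ζ

/-- the generating function -/
noncomputable def Gam : ℂ → ℂ := exists_Gam.choose

lemma Gam_deriv (ζ : ℂ) : HasDerivAt Gam (Complex.exp (PP ζ)) ζ := exists_Gam.choose_spec.1 ζ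

lemma Gam_add (ζ : ℂ) : Gam (ζ + Real.pi * I) = -Gam ζ := exists_Gam.choose_spec.2 ζ

/-- the harmonic map in the strip -/
noncomputable def HH (ζ : ℂ) : ℂ := (1 / 2 : ℂ) * (Gam ζ + Gam (-conj ζ))

lemma HH_add (ζ : ℂ) : HH (ζ + Real.pi * I) = -HH ζ := by
  unfold HH
  have h1 : -conj (ζ + Real.pi * I) = -conj ζ + Real.pi * I := by
    rw [map_add, map_mul, Complex.conj_ofReal, Complex.conj_I]; ring
  rw [h1, Gam_add, Gam_add]; ring

lemma HH_add2 (ζ : ℂ) : HH (ζ + 2 * Real.pi * I) = HH ζ := by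
  have : ζ + 2 * Real.pi * I = (ζ + Real.pi * I) + Real.pi * I := by ring
  rw [this, HH_add, HH_add, neg_neg]

lemma HH_add_int (ζ : ℂ) (n : ℤ) : HH (ζ + n * (2 * Real.pi * I)) = HH ζ := by
  have h : Function.Periodic HH (2 * Real.pi * I) := fun z => by
    rw [HH_add2]
  exact_mod_cast h.int_mul n ζ

/-- real and imaginary part of the exponent -/
noncomputable def uu (ζ : ℂ) : ℝ := (PP ζ).re
noncomputable def vv (ζ : ℂ) : ℝ := (PP ζ).im

lemma uu_eq (ζ : ℂ) : uu ζ = ζ.re + (1 / 32) * (Real.sinh (2 * ζ.re) * Real.cos (2 * ζ.im)) := by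
  unfold uu PP
  have h1 : Complex.sinh (2 * ζ) = Complex.sinh ((2 * ζ.re : ℝ) + (2 * ζ.im : ℝ) * I) := by
    congr 1
    conv_lhs => rw [← Complex.re_add_im ζ]
    push_cast; ring
  rw [h1, Complex.sinh_add, Complex.sinh_mul_I, Complex.cosh_mul_I]
  rw [← Complex.ofReal_sinh, ← Complex.ofReal_cos, ← Complex.ofReal_cosh, ← Complex.ofReal_sin]
  generalize Real.sinh (2 * ζ.re) = a
  generalize Real.cosh (2 * ζ.re) = b
  generalize Real.sin (2 * ζ.im) = c
  generalize Real.cos (2 * ζ.im) = d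
  simp

lemma vv_eq (ζ : ℂ) : vv ζ = ζ.im + (1 / 32) * (Real.cosh (2 * ζ.re) * Real.sin (2 * ζ.im)) := by
  unfold vv PP
  have h1 : Complex.sinh (2 * ζ) = Complex.sinh ((2 * ζ.re : ℝ) + (2 * ζ.im : ℝ) * I) := by
    congr 1
    conv_lhs => rw [← Complex.re_add_im ζ]
    push_cast; ring
  rw [h1, Complex.sinh_add, Complex.sinh_mul_I, Complex.cosh_mul_I]
  rw [← Complex.ofReal_sinh, ← Complex.ofReal_cos, ← Complex.ofReal_cosh, ← Complex.ofReal_sin]
  generalize Real.sinh (2 * ζ.re) = a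
  generalize Real.cosh (2 * ζ.re) = b
  generalize Real.sin (2 * ζ.im) = c
  generalize Real.cos (2 * ζ.im) = d
  simp

lemma PP_decomp (ζ : ℂ) : PP ζ = uu ζ + vv ζ * I := by
  unfold uu vv; rw [Complex.re_add_im]

/-- derivative of `HH` -/
noncomputable def DH (ζ : ℂ) : ℂ →L[ℝ] ℂ :=
  (Complex.exp (vv ζ * I)) • ((Real.sinh (uu ζ)) • (Complex.ofRealCLM.comp Complex.reCLM) +
    ((Real.cosh (uu ζ) : ℂ) * I) • (Complex.ofRealCLM.comp Complex.imCLM))

lemma DH_apply (ζ ω : ℂ) : DH ζ ω = Complex.exp (vv ζ * I) *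
    (Real.sinh (uu ζ) * ω.re + Real.cosh (uu ζ) * ω.im * I) := by
  unfold DH
  simp only [smul_apply, add_apply,
    ContinuousLinearMap.comp_apply, Complex.ofRealCLM_apply, Complex.reCLM_apply,
    Complex.imCLM_apply, smul_eq_mul, Complex.real_smul]
  ring

lemma HH_fderiv (ζ : ℂ) : HasFDerivAt HH (DH ζ) ζ := by
  have h1 : HasFDerivAt Gam ((ContinuousLinearMap.toSpanSingleton ℂ (Complex.exp (PP ζ))).restrictScalars ℝ) ζ :=
    (Gam_deriv ζ).hasFDerivAt.restrictScalars ℝ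
  have h2 : HasFDerivAt Gam ((ContinuousLinearMap.toSpanSingleton ℂ
      (Complex.exp (PP (-conj ζ)))).restrictScalars ℝ) (-conj ζ) :=
    (Gam_deriv (-conj ζ)).hasFDerivAt.restrictScalars ℝ
  have h3 : HasFDerivAt (fun ζ : ℂ => -conj ζ) (-(Complex.conjCLE : ℂ →L[ℝ] ℂ)) ζ :=
    (Complex.conjCLE.hasFDerivAt).neg
  have h4 := h2.comp ζ h3
  have h5 := (h1.add h4).const_mul (1 / 2 : ℂ)
  refine h5.congr_fderiv ?_
  ext ω
  simp only [smul_apply, add_apply,
      ContinuousLinearMap.comp_apply, ContinuousLinearMap.coe_restrictScalars',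
      ContinuousLinearMap.toSpanSingleton_apply, neg_apply,
      ContinuousLinearEquiv.coe_coe, Complex.conjCLE_apply, smul_eq_mul, DH_apply]
  have e1 : Complex.exp (PP ζ) = Complex.exp (uu ζ) * Complex.exp (vv ζ * I) := by
    rw [← Complex.exp_add, ← PP_decomp]
  have e2 : Complex.exp (PP (-conj ζ)) = Complex.exp (-uu ζ) * Complex.exp (vv ζ * I) := by
    rw [← Complex.exp_add, PP_conj, PP_decomp]
    congr 1
    rw [map_add, map_mul, Complex.conj_ofReal, Complex.conj_ofReal, Complex.conj_I]; ring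
  rw [e1, e2, Complex.ofReal_sinh, Complex.ofReal_cosh, Complex.sinh, Complex.cosh]
  have e3 : ω = ω.re + ω.im * I := (Complex.re_add_im ω).symm
  have e4 : conj ω = ω.re - ω.im * I := by
    apply Complex.ext <;> simp
  rw [e4]
  nth_rewrite 1 [e3]
  ring

lemma HH_contDiff : ContDiff ℝ 1 HH := by
  have h1 : ContDiff ℂ 1 Gam := by
    have : Differentiable ℂ Gam := fun ζ => (Gam_deriv ζ).differentiableAt
    exact this.contDiff
  have h2 : ContDiff ℝ 1 Gam := h1.restrict_scalars ℝ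
  have h3 : ContDiff ℝ 1 (fun ζ : ℂ => -conj ζ) := (Complex.conjCLE.contDiff).neg
  unfold HH
  exact contDiff_const.mul (h2.add (h2.comp h3))

end Pool.Agent.H366R3.MB
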