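import Mathlib
import Pool.Agent.H366R3.MB.Base

set_option autoImplicit false

open Set Filter Topology Metric MeasureTheory
open scoped ComplexConjugate

namespace Pool.Agent.H366R3.MB

open Complex (I)

lemma sinh_le_mul_cosh {x : ℝ} (hx : 0 ≤ x) : Real.sinh x ≤ x * Real.cosh x := by
  have h1 : MonotoneOn (fun x : ℝ => x * Real.cosh x - Real.sinh x) (Ici 0) := by
    apply monotoneOn_of_deriv_nonneg (convex_Ici 0)
    · apply Continuous.continuousOn
      exact (continuous_id.mul Real.continuous_cosh).sub Real.continuous_sinh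
    · intro x _
      apply DifferentiableAt.differentiableWithinAt
      exact (differentiableAt_id.mul Real.differentiable_cosh.differentiableAt).sub
        Real.differentiable_sinh.differentiableAt
    · intro x hx
      rw [interior_Ici] at hx
      have : HasDerivAt (fun x : ℝ => x * Real.cosh x - Real.sinh x)
          (1 * Real.cosh x + x * Real.sinh x - Real.cosh x) x :=
        ((hasDerivAt_id x).mul (Real.hasDerivAt_cosh x)).sub (Real.hasDerivAt_sinh x)
      rw [this.deriv]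
      have h2 : 0 ≤ x * Real.sinh x := mul_nonneg (le_of_lt hx) (Real.sinh_nonneg_iff.2 (le_of_lt hx))
      linarith
  have := h1 (mem_Ici.2 (le_refl (0 : ℝ))) hx hx
  simp at this
  exact this

lemma cosh_le' {x : ℝ} (hx : |x| ≤ 1) : Real.cosh x ≤ 1 + x ^ 2 := by
  have h1 := Real.abs_exp_sub_one_sub_id_le hx
  have h2 := Real.abs_exp_sub_one_sub_id_le (x := -x) (by rwa [abs_neg])
  rw [abs_le] at h1 h2
  rw [Real.cosh_eq]
  nlinarith [h1.2, h2.2]

lemma uu_bounds {ζ : ℂ} (h0 : 0 < ζ.re) (h1 : ζ.re < 1 / 16) :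
    14 / 15 * ζ.re ≤ uu ζ ∧ uu ζ ≤ 16 / 15 * ζ.re := by
  rw [uu_eq]
  have h2 : Real.sinh (2 * ζ.re) ≤ 2 * ζ.re * (1 + 1 / 64) := by
    refine (sinh_le_mul_cosh (by linarith)).trans ?_
    have h3 := cosh_le' (x := 2 * ζ.re) (by rw [abs_le]; constructor <;> linarith)
    apply mul_le_mul_of_nonneg_left _ (by linarith)
    nlinarith
  have h3 : 0 ≤ Real.sinh (2 * ζ.re) := Real.sinh_nonneg_iff.2 (by linarith)
  have h4 := Real.cos_le_one (2 * ζ.im)
  have h5 := Real.neg_one_le_cos (2 * ζ.im)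
  have h6 : Real.sinh (2 * ζ.re) * Real.cos (2 * ζ.im) ≤ Real.sinh (2 * ζ.re) := by nlinarith
  have h7 : -Real.sinh (2 * ζ.re) ≤ Real.sinh (2 * ζ.re) * Real.cos (2 * ζ.im) := by nlinarith
  constructor <;> nlinarith

lemma uu_pos {ζ : ℂ} (h0 : 0 < ζ.re) (h1 : ζ.re < 1 / 16) : 0 < uu ζ := by
  have := (uu_bounds h0 h1).1
  linarith

lemma vv_bound {ζ : ℂ} (h0 : 0 < ζ.re) (h1 : ζ.re < 1 / 16) : |vv ζ - ζ.im| ≤ 1 / 31 := by
  rw [vv_eq, add_sub_cancel_left, abs_mul, abs_mul]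
  have h3 := cosh_le' (x := 2 * ζ.re) (by rw [abs_le]; constructor <;> linarith)
  have h4 : |Real.cosh (2 * ζ.re)| ≤ 1 + 1 / 64 := by
    rw [abs_of_pos (Real.cosh_pos _)]; nlinarith
  have h5 := Real.abs_sin_le_one (2 * ζ.im)
  have h6 : |Real.cosh (2 * ζ.re)| * |Real.sin (2 * ζ.im)| ≤ (1 + 1 / 64) * 1 :=
    mul_le_mul h4 h5 (abs_nonneg _) (by norm_num)
  rw [abs_of_pos (by norm_num : (0:ℝ) < 1 / 32)]
  linarith

lemma exp_bound (t : ℝ) : ‖Complex.exp (t * I) - 1‖ ≤ |t| := by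
  have := Real.norm_exp_I_mul_ofReal_sub_one_le (x := t)
  rw [mul_comm]
  exact this

lemma est_aux {x t ε η : ℝ} (ht : |t| ≤ η) (hx : |x - 1| ≤ ε) :
    ‖Complex.exp (t * I) * x - 1‖ ≤ η * (1 + ε) + ε := by
  have h1 : Complex.exp (t * I) * x - 1 = (Complex.exp (t * I) - 1) * x + ((x - 1 : ℝ) : ℂ) := by
    push_cast; ring
  rw [h1]
  refine (norm_add_le _ _).trans ?_
  rw [norm_mul, Complex.norm_real, Complex.norm_real, Real.norm_eq_abs, Real.norm_eq_abs]
  have h2 : |x| ≤ 1 + ε := by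
    have := abs_add_le 1 (x - 1)
    rw [add_sub_cancel, abs_one] at this
    linarith
  have h3 := (exp_bound t).trans ht
  have h4 : ‖Complex.exp (t * I) - 1‖ * |x| ≤ η * (1 + ε) :=
    mul_le_mul h3 h2 (abs_nonneg _) ((norm_nonneg _).trans h3)
  linarith

lemma est1 {ζ : ℂ} (h0 : 0 < ζ.re) (h1 : ζ.re < 1 / 16) :
    ‖Complex.exp ((vv ζ - ζ.im : ℝ) * I) * (Real.sinh (uu ζ) / ζ.re : ℝ) - 1‖ ≤ 1 / 8 := by
  obtain ⟨h2, h3⟩ := uu_bounds h0 h1
  have h4 := uu_pos h0 h1
  have h5 : Real.sinh (uu ζ) ≤ uu ζ * (1 + 1 / 225) := by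
    refine (sinh_le_mul_cosh h4.le).trans ?_
    have h6 := cosh_le' (x := uu ζ) (by rw [abs_le]; constructor <;> linarith)
    apply mul_le_mul_of_nonneg_left _ h4.le
    nlinarith
  have h6 : uu ζ ≤ Real.sinh (uu ζ) := Real.self_le_sinh_iff.2 h4.le
  have h7 : |Real.sinh (uu ζ) / ζ.re - 1| ≤ 3 / 40 := by
    rw [abs_le]
    constructor
    · have : 14 / 15 ≤ Real.sinh (uu ζ) / ζ.re := by
        rw [le_div_iff₀ h0]; linarith
      linarith
    · have : Real.sinh (uu ζ) / ζ.re ≤ 1 + 3 / 40 := by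
        rw [div_le_iff₀ h0]; nlinarith
      linarith
  refine (est_aux (vv_bound h0 h1) h7).trans ?_
  norm_num

lemma est2 {ζ : ℂ} (h0 : 0 < ζ.re) (h1 : ζ.re < 1 / 16) :
    ‖Complex.exp ((vv ζ - ζ.im : ℝ) * I) * (Real.cosh (uu ζ) : ℝ) - 1‖ ≤ 1 / 16 := by
  obtain ⟨h2, h3⟩ := uu_bounds h0 h1
  have h4 := uu_pos h0 h1
  have h6 := cosh_le' (x := uu ζ) (by rw [abs_le]; constructor <;> linarith)
  have h5 := Real.one_le_cosh (uu ζ)
  have h7 : |Real.cosh (uu ζ) - 1| ≤ 1 / 225 := by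
    rw [abs_le]
    constructor
    · linarith
    · nlinarith
  refine (est_aux (vv_bound h0 h1) h7).trans ?_
  norm_num

lemma HH_near {ζ : ℂ} (h0 : 0 < ζ.re) (h1 : ζ.re < 1 / 16) :
    ‖HH ζ * Complex.exp (-ζ.im * I) - 1‖ ≤ 1 / 8 := by
  set s := ζ.re with hs
  set R : ℝ → ℂ := fun t => HH (s + t * I) - Complex.exp (t * I) with hR
  have hd : ∀ t : ℝ, HasDerivAt R (DH (s + t * I) I - Complex.exp (t * I) * I) t := by
    intro t
    have e1 : HasDerivAt (fun t : ℝ => (s : ℂ) + t * I) I t := by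
      have := ((Complex.ofRealCLM.hasDerivAt (x := t)).mul_const I).const_add (s : ℂ)
      simpa using this
    have e2 := (HH_fderiv (s + t * I)).comp_hasDerivAt t e1
    have e3 : HasDerivAt (fun t : ℝ => Complex.exp (t * I)) (Complex.exp (t * I) * I) t := by
      have := ((Complex.ofRealCLM.hasDerivAt (x := t)).mul_const I).cexp
      simpa using this
    exact e2.sub e3
  have hb : ∀ t : ℝ, ‖DH (s + t * I) I - Complex.exp (t * I) * I‖ ≤ 1 / 16 := by
    intro t
    set z : ℂ := s + t * I with hz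
    have hzre : z.re = s := by simp [hz]
    have hzim : z.im = t := by simp [hz]
    have e := est2 (ζ := z) (by rw [hzre]; exact h0) (by rw [hzre]; exact h1)
    rw [DH_apply, Complex.I_re, Complex.I_im]
    have e1 : Complex.exp (vv z * I) * ((Real.sinh (uu z) : ℂ) * ((0 : ℝ) : ℂ) + Real.cosh (uu z) * ((1 : ℝ) : ℂ) * I)
        - Complex.exp (t * I) * I = Complex.exp (t * I) * I *
        (Complex.exp ((vv z - z.im : ℝ) * I) * (Real.cosh (uu z) : ℝ) - 1) := by
      have : Complex.exp (vv z * I) = Complex.exp (t * I) * Complex.exp ((vv z - z.im : ℝ) * I) := by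
        rw [← Complex.exp_add, hzim]; congr 1; push_cast; ring
      rw [this]; push_cast; ring
    rw [e1, norm_mul, norm_mul, Complex.norm_exp_ofReal_mul_I, Complex.norm_I, one_mul, one_mul]
    exact e
  have hm := Convex.norm_image_sub_le_of_norm_hasDerivWithin_le (f := R) (s := univ) (C := 1 / 16)
    (fun t _ => (hd t).hasDerivWithinAt) (fun t _ => hb t) convex_univ (mem_univ ζ.im)
    (mem_univ (ζ.im + Real.pi))
  have hneg : R (ζ.im + Real.pi) = -R ζ.im := by
    rw [hR]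
    simp only
    have e1 : (s : ℂ) + ((ζ.im + Real.pi : ℝ) : ℂ) * I = (s + ζ.im * I) + Real.pi * I := by
      push_cast; ring
    have e2 : Complex.exp (((ζ.im + Real.pi : ℝ) : ℂ) * I) = -Complex.exp (ζ.im * I) := by
      push_cast
      rw [add_mul, Complex.exp_add, Complex.exp_pi_mul_I]; ring
    rw [e1, HH_add, e2]; ring
  rw [hneg, add_sub_cancel_left, Real.norm_eq_abs, abs_of_pos Real.pi_pos] at hm
  have h3 : ‖R ζ.im‖ ≤ 1 / 8 := by
    have : -R ζ.im - R ζ.im = (-2 : ℂ) * R ζ.im := by ring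
    rw [this, norm_mul] at hm
    have h4 : ‖(-2 : ℂ)‖ = 2 := by norm_num
    rw [h4] at hm
    have := Real.pi_lt_four
    linarith
  have h5 : HH ζ * Complex.exp (-ζ.im * I) - 1 = R ζ.im * Complex.exp (-ζ.im * I) := by
    rw [hR]
    simp only
    rw [hs, Complex.re_add_im, sub_mul, ← Complex.exp_add]
    simp
  rw [h5, norm_mul]
  have h6 : ‖Complex.exp (-ζ.im * I)‖ = 1 := by
    have := Complex.norm_exp_ofReal_mul_I (-ζ.im)
    push_cast at this; exact this
  rw [h6, mul_one]; exact h3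

/-- the strip in the flattened coordinate -/
def SS : Set ℂ := {x | 0 < x.re ∧ x.re < 1 / 512}

lemma SS_convex : Convex ℝ SS := by
  have : SS = Complex.reLm ⁻¹' (Ioo 0 (1 / 512)) := rfl
  rw [this]
  exact (convex_Ioo _ _).linear_preimage _

lemma SS_open : IsOpen SS :=
  (isOpen_lt continuous_const Complex.continuous_re).inter
    (isOpen_lt Complex.continuous_re continuous_const)

/-- the unflattened coordinate -/
noncomputable def zt (x : ℂ) : ℂ := (Real.sqrt (2 * x.re) : ℂ) + x.im * I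

lemma zt_re (x : ℂ) : (zt x).re = Real.sqrt (2 * x.re) := by simp [zt]
lemma zt_im (x : ℂ) : (zt x).im = x.im := by simp [zt]

lemma zt_pos {x : ℂ} (hx : x ∈ SS) : 0 < (zt x).re := by
  rw [zt_re]; exact Real.sqrt_pos.2 (by linarith [hx.1])

lemma zt_lt {x : ℂ} (hx : x ∈ SS) : (zt x).re < 1 / 16 := by
  rw [zt_re, Real.sqrt_lt' (by norm_num)]
  have := hx.2; norm_num at this ⊢; linarith

/-- the lifted map -/
noncomputable def KK (x : ℂ) : ℂ := x.im * I + Complex.log (HH (zt x) * Complex.exp (-x.im * I))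

lemma near_K {x : ℂ} (hx : x ∈ SS) : ‖HH (zt x) * Complex.exp (-x.im * I) - 1‖ ≤ 1 / 8 := by
  have := HH_near (zt_pos hx) (zt_lt hx)
  rwa [zt_im] at this

lemma near_ne {w : ℂ} (h : ‖w - 1‖ ≤ 1 / 8) : w ∈ Complex.slitPlane ∧ 7 / 8 ≤ ‖w‖ ∧ w ≠ 0 := by
  have h1 : 7 / 8 ≤ w.re := by
    have := (Complex.abs_re_le_norm (w - 1)).trans h
    rw [Complex.sub_re, Complex.one_re, abs_le] at this
    linarith [this.1]
  refine ⟨Or.inl (by linarith), ?_, ?_⟩
  · exact h1.trans (Complex.re_le_norm w)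
  · rintro rfl
    rw [Complex.zero_re] at h1; linarith

lemma exp_KK {x : ℂ} (hx : x ∈ SS) : Complex.exp (KK x) = HH (zt x) := by
  unfold KK
  rw [Complex.exp_add, Complex.exp_log (near_ne (near_K hx)).2.2]
  rw [mul_comm, mul_assoc, ← Complex.exp_add]
  simp

lemma KK_add (x : ℂ) (n : ℤ) : KK (x + n * (2 * Real.pi * I)) = KK x + n * (2 * Real.pi * I) := by
  have h1 : (x + n * (2 * Real.pi * I)).re = x.re := by simp
  have h2 : (x + n * (2 * Real.pi * I)).im = x.im + n * (2 * Real.pi) := by simp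
  have h3 : zt (x + n * (2 * Real.pi * I)) = zt x + n * (2 * Real.pi * I) := by
    unfold zt
    rw [h1, h2]; push_cast; ring
  unfold KK
  rw [h3, HH_add_int, h2]
  have h4 : Complex.exp (-((x.im + n * (2 * Real.pi) : ℝ) : ℂ) * I) = Complex.exp (-x.im * I) := by
    have : -((x.im + n * (2 * Real.pi) : ℝ) : ℂ) * I = -x.im * I + ((-n : ℤ) : ℂ) * (2 * Real.pi * I) := by
      push_cast; ring
    rw [this]
    exact Complex.exp_periodic.int_mul _ _
  rw [h4]; push_cast; ring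

lemma KK_fderiv {x : ℂ} (hx : x ∈ SS) : ∃ D : ℂ →L[ℝ] ℂ, HasFDerivAt KK D x ∧
    ∀ ω, ‖D ω - ω‖ ≤ 1 / 2 * ‖ω‖ := by
  have h0 : 0 < 2 * x.re := by linarith [hx.1]
  set s := Real.sqrt (2 * x.re) with hs
  have hs0 : 0 < s := Real.sqrt_pos.2 h0
  have e1 : HasFDerivAt (fun x : ℂ => 2 * x.re) ((2 : ℝ) • Complex.reCLM) x :=
    Complex.reCLM.hasFDerivAt.const_mul 2
  have e2 := e1.sqrt h0.ne'
  have e3 : HasFDerivAt (fun x : ℂ => (Real.sqrt (2 * x.re) : ℂ)) _ x :=
    Complex.ofRealCLM.hasFDerivAt.comp x e2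
  have e4 : HasFDerivAt (fun x : ℂ => (x.im : ℂ)) (Complex.ofRealCLM.comp Complex.imCLM) x :=
    Complex.ofRealCLM.hasFDerivAt.comp x Complex.imCLM.hasFDerivAt
  have e5 : HasFDerivAt zt _ x := e3.add (e4.mul_const I)
  have e6 := (HH_fderiv (zt x)).comp x e5
  have e7 : HasFDerivAt (fun x : ℂ => Complex.exp (-x.im * I))
    (Complex.exp (-x.im * I) • I • -(Complex.ofRealCLM.comp Complex.imCLM)) x :=
    (e4.neg.mul_const I).cexp
  have e8 : HasFDerivAt (fun x : ℂ => HH (zt x) * Complex.exp (-x.im * I)) _ x := e6.mul e7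
  obtain ⟨g1, g2, g3⟩ := near_ne (near_K hx)
  have e9' : HasFDerivAt Complex.log _ (HH (zt x) * Complex.exp (-x.im * I)) :=
    (Complex.hasDerivAt_log g1).hasFDerivAt.restrictScalars ℝ
  have e9 := HasFDerivAt.comp (g := Complex.log)
    (f := fun x : ℂ => HH (zt x) * Complex.exp (-x.im * I)) x e9' e8
  have e10 := (e4.mul_const I).add e9
  refine ⟨_, e10, fun ω => ?_⟩
  set h : ℂ := HH (zt x) * Complex.exp (-x.im * I) with hh
  set X : ℂ := Complex.exp ((vv (zt x) - (zt x).im : ℝ) * I) * (Real.sinh (uu (zt x)) / (zt x).re : ℝ)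
    with hX
  set Y : ℂ := Complex.exp ((vv (zt x) - (zt x).im : ℝ) * I) * (Real.cosh (uu (zt x)) : ℝ) with hY
  have hX1 : ‖X - 1‖ ≤ 1 / 8 := est1 (zt_pos hx) (zt_lt hx)
  have hY1 : ‖Y - 1‖ ≤ 1 / 16 := est2 (zt_pos hx) (zt_lt hx)
  have hh1 : ‖h - 1‖ ≤ 1 / 8 := near_K hx
  have hX2 : ‖X / h - 1‖ ≤ 2 / 7 := by
    have : X / h - 1 = ((X - 1) - (h - 1)) / h := by field_simp; ring
    rw [this, norm_div, div_le_iff₀ (by linarith)]
    have := norm_sub_le (X - 1) (h - 1)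
    nlinarith
  have hY2 : ‖Y / h - 1‖ ≤ 3 / 14 := by
    have : Y / h - 1 = ((Y - 1) - (h - 1)) / h := by field_simp; ring
    rw [this, norm_div, div_le_iff₀ (by linarith)]
    have := norm_sub_le (Y - 1) (h - 1)
    nlinarith
  have key : ∀ z : ℂ, z = ω.re * (X / h - 1) + ω.im * I * (Y / h - 1) → ‖z‖ ≤ 1 / 2 * ‖ω‖ := by
    rintro z rfl
    refine (norm_add_le _ _).trans ?_
    rw [norm_mul, norm_mul, norm_mul, Complex.norm_I, Complex.norm_real, Complex.norm_real, mul_one]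
    have a1 := Complex.abs_re_le_norm ω
    have a2 := Complex.abs_im_le_norm ω
    rw [Real.norm_eq_abs, Real.norm_eq_abs]
    have a3 : |ω.re| * ‖X / h - 1‖ ≤ ‖ω‖ * (2 / 7) :=
      mul_le_mul a1 hX2 (norm_nonneg _) (norm_nonneg _)
    have a4 : |ω.im| * ‖Y / h - 1‖ ≤ ‖ω‖ * (3 / 14) :=
      mul_le_mul a2 hY2 (norm_nonneg _) (norm_nonneg _)
    linarith
  apply key
  have hexp : Complex.exp (vv (zt x) * I) =
      Complex.exp ((vv (zt x) - (zt x).im : ℝ) * I) * Complex.exp (x.im * I) := by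
    rw [← Complex.exp_add, zt_im]; congr 1; push_cast; ring
  have hexp2 : Complex.exp (x.im * I) * Complex.exp (-x.im * I) = 1 := by
    rw [← Complex.exp_add]; simp
  have hHne : HH (zt x) ≠ 0 := by
    intro h0
    apply g3
    rw [hh, h0, zero_mul]
  have hene : Complex.exp (-x.im * I) ≠ 0 := Complex.exp_ne_zero _
  simp only [add_apply, smul_apply, ContinuousLinearMap.comp_apply, DH_apply, neg_apply,
    ContinuousLinearMap.coe_restrictScalars', ContinuousLinearMap.toSpanSingleton_apply,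
    Complex.ofRealCLM_apply, Complex.reCLM_apply, Complex.imCLM_apply, smul_eq_mul,
    Function.comp_apply]
  have k1 : (((1 / (2 * Real.sqrt (2 * x.re)) * (2 * ω.re) : ℝ) : ℂ) + I * (ω.im : ℂ)).re
      = ω.re / s := by
    rw [Complex.add_re, Complex.ofReal_re, Complex.mul_re, Complex.I_re, Complex.I_im,
      Complex.ofReal_re, Complex.ofReal_im, ← hs]
    field_simp; ring
  have k2 : (((1 / (2 * Real.sqrt (2 * x.re)) * (2 * ω.re) : ℝ) : ℂ) + I * (ω.im : ℂ)).im
      = ω.im := by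
    rw [Complex.add_im, Complex.ofReal_im, Complex.mul_im, Complex.I_re, Complex.I_im,
      Complex.ofReal_re, Complex.ofReal_im]
    ring
  rw [k1, k2, hexp]
  have hω : ω = ω.re + ω.im * I := (Complex.re_add_im ω).symm
  nth_rewrite 5 [hω]
  have hXe : X = Complex.exp ((vv (zt x) - (zt x).im : ℝ) * I) * (Real.sinh (uu (zt x)) / s) := by
    rw [hX, zt_re]; push_cast; rfl
  rw [hXe, hY]
  have hs' : (s : ℂ) ≠ 0 := by exact_mod_cast hs0.ne'
  push_cast at *
  generalize Complex.exp ((vv (zt x) - (zt x).im) * I) = A at *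
  have hB : Complex.exp (x.im * I) * Complex.exp (-x.im * I) = 1 := hexp2
  have hh' : HH (zt x) * Complex.exp (-x.im * I) = h := hh.symm
  have hh3 : h * h⁻¹ = 1 := mul_inv_cancel₀ g3
  simp only [div_eq_mul_inv]
  generalize Complex.exp (x.im * I) = B at *
  generalize Complex.exp (-x.im * I) = C at *
  generalize Complex.sinh (uu (zt x)) = S at *
  generalize Complex.cosh (uu (zt x)) = T at *
  generalize HH (zt x) = Hx at *
  generalize h⁻¹ = hi at *
  linear_combination (A * (S * ω.re * (s : ℂ)⁻¹ + T * ω.im * I) * hi) * hB - (I * ω.im * hi) * hh' -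
    I * ω.im * hh3

lemma KK_lip {x y : ℂ} (hx : x ∈ SS) (hy : y ∈ SS) : ‖(KK x - KK y) - (x - y)‖ ≤ 1 / 2 * ‖x - y‖ := by
  have h1 : ∀ z ∈ SS, ∃ D : ℂ →L[ℝ] ℂ, HasFDerivAt (fun z => KK z - z) D z ∧ ‖D‖ ≤ 1 / 2 := by
    intro z hz
    obtain ⟨D, hD, hb⟩ := KK_fderiv hz
    refine ⟨D - ContinuousLinearMap.id ℝ ℂ, hD.sub (hasFDerivAt_id z), ?_⟩
    apply ContinuousLinearMap.opNorm_le_bound _ (by norm_num)
    intro ω
    exact hb ω
  have h2 : ∀ z ∈ SS, DifferentiableAt ℝ (fun z => KK z - z) z := fun z hz => by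
    obtain ⟨D, hD, -⟩ := h1 z hz
    exact hD.differentiableAt
  have h3 : ∀ z ∈ SS, ‖fderiv ℝ (fun z => KK z - z) z‖ ≤ 1 / 2 := fun z hz => by
    obtain ⟨D, hD, hb⟩ := h1 z hz
    rw [hD.fderiv]; exact hb
  have := SS_convex.norm_image_sub_le_of_norm_fderiv_le h2 h3 hy hx
  have e : KK x - KK y - (x - y) = (KK x - x) - (KK y - y) := by ring
  rw [e]; exact this

lemma KK_antilip {x y : ℂ} (hx : x ∈ SS) (hy : y ∈ SS) : ‖x - y‖ ≤ 2 * ‖KK x - KK y‖ := by
  have h1 := KK_lip hx hy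
  have h2 : ‖x - y‖ ≤ ‖KK x - KK y‖ + ‖(KK x - KK y) - (x - y)‖ := by
    have : x - y = (KK x - KK y) - ((KK x - KK y) - (x - y)) := by ring
    conv_lhs => rw [this]
    exact norm_sub_le _ _
  linarith

lemma KK_inj : InjOn KK SS := by
  intro x hx y hy h
  have := KK_antilip hx hy
  rw [h, sub_self, norm_zero, mul_zero] at this
  exact sub_eq_zero.1 (norm_le_zero_iff.1 this)

lemma KK_cont : ContinuousOn KK SS := by
  intro x hx
  obtain ⟨D, hD, -⟩ := KK_fderiv hx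
  exact hD.continuousAt.continuousWithinAt

end Pool.Agent.H366R3.MB
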