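import Mathlib
import Pool.Agent.H366R3.MB.Est
import Pool.Agent.H366R3.ED.Polar

set_option autoImplicit false

open Set Filter Topology Metric MeasureTheory
open scoped ComplexConjugate ENNReal NNReal

namespace Pool.Agent.H366R3.MB

open Complex (I)
open Pool.Agent.H366R3.ED

/-- the annulus -/
def Om : Set ℂ := ann 1 (Real.exp (1 / 16))

lemma Om_open : IsOpen Om := ann_open _ _

lemma Om_ne {z : ℂ} (hz : z ∈ Om) : z ≠ 0 := by
  rintro rfl
  have := hz.1
  rw [norm_zero] at this; linarith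

lemma Om_log {z : ℂ} (hz : z ∈ Om) : 0 < (Complex.log z).re ∧ (Complex.log z).re < 1 / 16 := by
  rw [Complex.log_re]
  refine ⟨Real.log_pos hz.1, ?_⟩
  rw [Real.log_lt_iff_lt_exp (by linarith [hz.1])]
  exact hz.2

lemma exp_mem_Om {ζ : ℂ} : Complex.exp ζ ∈ Om ↔ 0 < ζ.re ∧ ζ.re < 1 / 16 := by
  have h : Complex.exp ζ ∈ Om ↔ 1 < ‖Complex.exp ζ‖ ∧ ‖Complex.exp ζ‖ < Real.exp (1 / 16) := Iff.rfl
  rw [h, Complex.norm_exp, Real.one_lt_exp_iff, Real.exp_lt_exp]

/-- the map -/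
noncomputable def hm (z : ℂ) : ℂ := HH (Complex.log z)

lemma HH_log_exp (ζ : ℂ) : HH (Complex.log (Complex.exp ζ)) = HH ζ := by
  have h1 : Complex.exp (Complex.log (Complex.exp ζ)) = Complex.exp ζ :=
    Complex.exp_log (Complex.exp_ne_zero ζ)
  obtain ⟨n, hn⟩ := Complex.exp_eq_exp_iff_exists_int.1 h1
  rw [hn, HH_add_int]

lemma hm_exp (ζ : ℂ) : hm (Complex.exp ζ) = HH ζ := HH_log_exp ζ

lemma hm_local {z0 z : ℂ} (h0 : z0 ≠ 0) (hz : z ≠ 0) :
    hm z = HH (Complex.log z0 + Complex.log (z / z0)) := by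
  rw [← hm_exp, Complex.exp_add, Complex.exp_log h0, Complex.exp_log (div_ne_zero hz h0)]
  congr 1; field_simp

/-- derivative of `hm` -/
noncomputable def DM (z : ℂ) : ℂ →L[ℝ] ℂ :=
  (DH (Complex.log z)).comp ((ContinuousLinearMap.toSpanSingleton ℂ z⁻¹).restrictScalars ℝ)

lemma DM_apply (z ω : ℂ) : DM z ω = DH (Complex.log z) (ω / z) := by
  unfold DM
  simp [ContinuousLinearMap.comp_apply, div_eq_mul_inv]

lemma loglin {z0 : ℂ} (h0 : z0 ≠ 0) :
    HasDerivAt (fun z => Complex.log z0 + Complex.log (z / z0)) z0⁻¹ z0 := by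
  have h1 : HasDerivAt (fun z : ℂ => z / z0) (1 / z0) z0 := (hasDerivAt_id z0).div_const z0
  have h2 : z0 / z0 ∈ Complex.slitPlane := by rw [div_self h0]; exact Complex.one_mem_slitPlane
  have h3 := (h1.clog h2).const_add (Complex.log z0)
  rw [div_self h0, div_one, one_div] at h3
  exact h3

lemma hm_fderiv {z : ℂ} (hz : z ≠ 0) : HasFDerivAt hm (DM z) z := by
  have h1 : HasFDerivAt (fun w => Complex.log z + Complex.log (w / z))
      ((ContinuousLinearMap.toSpanSingleton ℂ z⁻¹).restrictScalars ℝ) z :=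
    (loglin hz).hasFDerivAt.restrictScalars ℝ
  have h2 : Complex.log z + Complex.log (z / z) = Complex.log z := by
    rw [div_self hz, Complex.log_one, add_zero]
  have h3 : HasFDerivAt HH (DH (Complex.log z)) (Complex.log z + Complex.log (z / z)) := by
    rw [h2]; exact HH_fderiv _
  have h4 := HasFDerivAt.comp (g := HH) (f := fun w => Complex.log z + Complex.log (w / z)) z h3 h1
  refine h4.congr_of_eventuallyEq ?_
  filter_upwards [isOpen_ne.mem_nhds hz] with w hw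
  exact hm_local hz hw

lemma hm_contDiffAt {z : ℂ} (hz : z ≠ 0) : ContDiffAt ℝ 1 hm z := by
  have h1 : ContDiffAt ℂ 1 (fun w => Complex.log z + Complex.log (w / z)) z := by
    apply contDiffAt_const.add
    have h2 : z / z ∈ Complex.slitPlane := by rw [div_self hz]; exact Complex.one_mem_slitPlane
    exact ContDiffAt.comp (g := Complex.log) (f := fun w => w / z) z
      (Complex.contDiffAt_log (n := 1) h2) (contDiffAt_id.div_const z)
  have h2 : ContDiffAt ℝ 1 (fun w => Complex.log z + Complex.log (w / z)) z := h1.restrict_scalars ℝ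
  have h3 := HH_contDiff.contDiffAt.comp z h2
  refine h3.congr_of_eventuallyEq ?_
  filter_upwards [isOpen_ne.mem_nhds hz] with w hw
  exact hm_local hz hw

lemma DH_normSq (ζ ω : ℂ) : ‖DH ζ ω‖ ^ 2 =
    Real.sinh (uu ζ) ^ 2 * ω.re ^ 2 + Real.cosh (uu ζ) ^ 2 * ω.im ^ 2 := by
  rw [DH_apply, norm_mul, Complex.norm_exp_ofReal_mul_I, one_mul, ← Complex.normSq_eq_norm_sq]
  have : (Real.sinh (uu ζ) : ℂ) * ω.re + Real.cosh (uu ζ) * ω.im * I =
    ((Real.sinh (uu ζ) * ω.re : ℝ) : ℂ) + ((Real.cosh (uu ζ) * ω.im : ℝ) : ℂ) * I := by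
    push_cast; ring
  rw [this, Complex.normSq_add_mul_I]
  ring

lemma DH_normSq' (ζ ω : ℂ) : ‖DH ζ ω‖ ^ 2 =
    Real.sinh (uu ζ) ^ 2 * ‖ω‖ ^ 2 + ω.im ^ 2 := by
  rw [DH_normSq, Real.cosh_sq, ← Complex.normSq_eq_norm_sq, Complex.normSq_apply]; ring

lemma DM_normSq (z ω : ℂ) : ‖DM z ω‖ ^ 2 =
    Real.sinh (uu (Complex.log z)) ^ 2 * (‖ω‖ ^ 2 / ‖z‖ ^ 2) + ((ω / z).im) ^ 2 := by
  rw [DM_apply, DH_normSq', norm_div, div_pow]

lemma hm_inj : InjOn hm Om := by
  intro z1 h1 z2 h2 he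
  have key : ∀ z ∈ Om, ∃ x ∈ SS, zt x = Complex.log z := by
    intro z hz
    obtain ⟨a, b⟩ := Om_log hz
    refine ⟨(((Complex.log z).re ^ 2 / 2 : ℝ) : ℂ) + (Complex.log z).im * I, ⟨?_, ?_⟩, ?_⟩
    · simp only [Complex.add_re, Complex.ofReal_re, Complex.mul_re, Complex.I_re, Complex.I_im,
        Complex.ofReal_im]
      have := pow_pos a 2
      linarith
    · simp only [Complex.add_re, Complex.ofReal_re, Complex.mul_re, Complex.I_re, Complex.I_im,
        Complex.ofReal_im]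
      nlinarith
    · unfold zt
      have e1 : ((((Complex.log z).re ^ 2 / 2 : ℝ) : ℂ) + (Complex.log z).im * I).re =
        (Complex.log z).re ^ 2 / 2 := by
        simp only [Complex.add_re, Complex.ofReal_re, Complex.mul_re, Complex.I_re, Complex.I_im,
          Complex.ofReal_im]; ring
      have e2 : ((((Complex.log z).re ^ 2 / 2 : ℝ) : ℂ) + (Complex.log z).im * I).im =
        (Complex.log z).im := by
        simp only [Complex.add_im, Complex.ofReal_re, Complex.mul_im, Complex.I_re, Complex.I_im,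
          Complex.ofReal_im]; ring
      rw [e1, e2]
      have e3 : 2 * ((Complex.log z).re ^ 2 / 2) = (Complex.log z).re ^ 2 := by ring
      rw [e3, Real.sqrt_sq a.le, Complex.re_add_im]
  obtain ⟨x1, hx1, e1⟩ := key z1 h1
  obtain ⟨x2, hx2, e2⟩ := key z2 h2
  have h3 : Complex.exp (KK x1) = Complex.exp (KK x2) := by
    rw [exp_KK hx1, exp_KK hx2, e1, e2]; exact he
  obtain ⟨n, hn⟩ := Complex.exp_eq_exp_iff_exists_int.1 h3
  rw [← KK_add] at hn
  have h4 : x2 + n * (2 * Real.pi * I) ∈ SS := by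
    have : (x2 + n * (2 * Real.pi * I)).re = x2.re := by simp
    exact ⟨this ▸ hx2.1, this ▸ hx2.2⟩
  have h5 := KK_inj hx1 h4 hn
  have h6 : zt x1 = zt x2 + n * (2 * Real.pi * I) := by
    have a1 : (x2 + n * (2 * Real.pi * I)).re = x2.re := by simp
    have a2 : (x2 + n * (2 * Real.pi * I)).im = x2.im + n * (2 * Real.pi) := by simp
    rw [h5]; unfold zt
    rw [a1, a2]; push_cast; ring
  rw [e1, e2] at h6
  rw [← Complex.exp_log (Om_ne h1), ← Complex.exp_log (Om_ne h2), h6]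
  exact Complex.exp_eq_exp_iff_exists_int.2 ⟨n, rfl⟩

/-- the derivative as an equivalence -/
lemma DM_equiv {z : ℂ} (hz : z ∈ Om) : ∃ e : ℂ ≃L[ℝ] ℂ, (e : ℂ →L[ℝ] ℂ) = DM z := by
  have hinj : Function.Injective (DM z) := by
    rw [injective_iff_map_eq_zero]
    intro ω h0
    have h1 := DM_normSq z ω
    rw [h0, norm_zero] at h1
    obtain ⟨a, b⟩ := Om_log hz
    have h2 : 0 < Real.sinh (uu (Complex.log z)) := Real.sinh_pos_iff.2 (uu_pos a b)
    have h3 : 0 < ‖z‖ := norm_pos_iff.2 (Om_ne hz)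
    by_contra hne
    have h4 : 0 < ‖ω‖ := norm_pos_iff.2 hne
    have h5 : 0 < Real.sinh (uu (Complex.log z)) ^ 2 * (‖ω‖ ^ 2 / ‖z‖ ^ 2) := by positivity
    have h6 := sq_nonneg ((ω / z).im)
    norm_num at h1
    linarith
  have hk : (DM z).toLinearMap.ker = ⊥ := LinearMap.ker_eq_bot.2 hinj
  refine ⟨(LinearEquiv.ofInjectiveEndo (DM z : ℂ →ₗ[ℝ] ℂ) hinj).toContinuousLinearEquiv, ?_⟩
  ext ω
  simp

/-- the target -/
def Ot : Set ℂ := hm '' Om

lemma map_nhds {z : ℂ} (hz : z ∈ Om) : map hm (𝓝 z) = 𝓝 (hm z) := by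
  obtain ⟨e, he⟩ := DM_equiv hz
  have h1 : HasStrictFDerivAt hm (e : ℂ →L[ℝ] ℂ) z := by
    rw [he]
    exact (hm_contDiffAt (Om_ne hz)).hasStrictFDerivAt' (hm_fderiv (Om_ne hz)) one_ne_zero
  exact h1.map_nhds_eq_of_equiv

lemma Ot_open : IsOpen Ot := by
  rw [isOpen_iff_mem_nhds]
  rintro _ ⟨z, hz, rfl⟩
  rw [← map_nhds hz]
  exact image_mem_map (Om_open.mem_nhds hz)

/-- the inverse map -/
noncomputable def km : ℂ → ℂ := Function.invFunOn hm Om

lemma km_hm {z : ℂ} (hz : z ∈ Om) : km (hm z) = z := hm_inj.leftInvOn_invFunOn hz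

lemma km_mem {w : ℂ} (hw : w ∈ Ot) : km w ∈ Om := by
  obtain ⟨z, hz, rfl⟩ := hw
  rw [km_hm hz]; exact hz

lemma hm_km {w : ℂ} (hw : w ∈ Ot) : hm (km w) = w := by
  obtain ⟨z, hz, rfl⟩ := hw
  rw [km_hm hz]

lemma km_contDiffAt {w : ℂ} (hw : w ∈ Ot) : ContDiffAt ℝ 1 km w := by
  obtain ⟨z, hz, rfl⟩ := hw
  obtain ⟨e, he⟩ := DM_equiv hz
  have h1 : HasFDerivAt hm (e : ℂ →L[ℝ] ℂ) z := by rw [he]; exact hm_fderiv (Om_ne hz)
  have hc := hm_contDiffAt (Om_ne hz)
  have h2 := hc.to_localInverse h1 one_ne_zero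
  refine h2.congr_of_eventuallyEq ?_
  have h3 : Tendsto (hc.localInverse h1 one_ne_zero) (𝓝 (hm z)) (𝓝 z) := by
    have := h2.continuousAt
    rw [ContinuousAt, hc.localInverse_apply_image h1 one_ne_zero] at this
    exact this
  have h4 : ∀ᶠ y in 𝓝 (hm z), hm (hc.localInverse h1 one_ne_zero y) = y :=
    (hc.hasStrictFDerivAt' h1 one_ne_zero).eventually_right_inverse
  filter_upwards [h3.eventually (Om_open.mem_nhds hz), h4] with y hy1 hy2
  rw [← hy2, km_hm hy1, hy2]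

end Pool.Agent.H366R3.MB
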