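import Mathlib
import Pool.Agent.H366R3.MB.Map
import Pool.Agent.H366R3.ED.Dom

set_option autoImplicit false

open Set Filter Topology Metric
open scoped ComplexConjugate Real

namespace Pool.Agent.H366R3.MB

open Pool.Agent.H366R3 Pool.Agent.H366R3.ED
open Complex (I)

lemma ann_preconnected {a b : ℝ} (ha : 0 ≤ a) : IsPreconnected (ann a b) := by
  have := annc_preconnected 0 (a := a) (b := b) ha
  have e : annc 0 a b = ann a b := by
    ext z; simp [annc, ann]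
  rwa [e] at this

lemma Om_preconnected : IsPreconnected Om := ann_preconnected (by norm_num)

lemma hm_cont : ContinuousOn hm Om := fun z hz =>
  (hm_contDiffAt (Om_ne hz)).continuousAt.continuousWithinAt

lemma Ot_preconnected : IsPreconnected Ot := Om_preconnected.image _ hm_cont

lemma Om_mem {t : ℝ} (h1 : 1 < t) (h2 : t < Real.exp (1 / 16)) : (t : ℂ) ∈ Om := by
  have : ‖(t : ℂ)‖ = t := by rw [Complex.norm_real, Real.norm_of_nonneg (by linarith)]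
  exact ⟨by rw [this]; exact h1, by rw [this]; exact h2⟩

lemma one_lt_e : (1 : ℝ) < Real.exp (1 / 16) := by rw [Real.one_lt_exp_iff]; norm_num

/-- data of a conformal map of the target -/
structure PsiD (ψ : ℂ → ℂ) (rs : ℝ) : Prop where
  d : DifferentiableOn ℂ ψ Ot
  inj : InjOn ψ Ot
  img : ψ '' Ot = {w : ℂ | rs < ‖w‖ ∧ ‖w‖ < 1}
  h0 : 0 ≤ rs
  h1 : rs < 1

lemma PsiD.maps {ψ : ℂ → ℂ} {rs : ℝ} (P : PsiD ψ rs) {w : ℂ} (hw : w ∈ Ot) :
    rs < ‖ψ w‖ ∧ ‖ψ w‖ < 1 := by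
  have : ψ w ∈ ψ '' Ot := ⟨w, hw, rfl⟩
  rw [P.img] at this; exact this

lemma PsiD.ne {ψ : ℂ → ℂ} {rs : ℝ} (P : PsiD ψ rs) {w : ℂ} (hw : w ∈ Ot) : ψ w ≠ 0 := by
  have := (P.maps hw).1
  exact norm_pos_iff.1 (P.h0.trans_lt this)

lemma PsiD.open {ψ : ℂ → ℂ} {rs : ℝ} (P : PsiD ψ rs) {s : Set ℂ} (hs : s ⊆ Ot) (hso : IsOpen s) :
    IsOpen (ψ '' s) := by
  have han : AnalyticOnNhd ℂ ψ Ot := P.d.analyticOnNhd Ot_open
  rcases han.is_constant_or_isOpen Ot_preconnected with ⟨c, hc⟩ | h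
  · exfalso
    have h1 := one_lt_e
    obtain ⟨t1, ht1, ht1'⟩ := exists_between h1
    obtain ⟨t2, ht2, ht2'⟩ := exists_between ht1'
    have m1 := Om_mem ht1 ht1'
    have m2 := Om_mem (ht1.trans ht2) ht2'
    have h3 : hm (t1 : ℂ) = hm (t2 : ℂ) :=
      P.inj ⟨_, m1, rfl⟩ ⟨_, m2, rfl⟩ (by rw [hc _ ⟨_, m1, rfl⟩, hc _ ⟨_, m2, rfl⟩])
    have h4 : (t1 : ℂ) = t2 := hm_inj m1 m2 h3
    have : t1 = t2 := by exact_mod_cast h4
    linarith
  · exact h s hs hso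

/-- inverse of the composed map -/
lemma PsiD.inv {ψ : ℂ → ℂ} {rs : ℝ} (P : PsiD ψ rs) : ∃ p : ℂ → ℂ,
    ContinuousOn p {w : ℂ | rs < ‖w‖ ∧ ‖w‖ < 1} ∧ MapsTo p {w : ℂ | rs < ‖w‖ ∧ ‖w‖ < 1} Om ∧
    (∀ w, rs < ‖w‖ → ‖w‖ < 1 → ψ (hm (p w)) = w) ∧ ∀ z ∈ Om, p (ψ (hm z)) = z := by
  set q : ℂ → ℂ := fun z => ψ (hm z) with hq
  have hqi : InjOn q Om := fun z hz w hw h =>
    hm_inj hz hw (P.inj ⟨z, hz, rfl⟩ ⟨w, hw, rfl⟩ h)
  have hqs : ∀ w, rs < ‖w‖ → ‖w‖ < 1 → ∃ z ∈ Om, q z = w := by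
    intro w h1 h2
    have : w ∈ ψ '' Ot := by rw [P.img]; exact ⟨h1, h2⟩
    obtain ⟨v, ⟨z, hz, rfl⟩, hv⟩ := this
    exact ⟨z, hz, hv⟩
  have hleft : ∀ z ∈ Om, Function.invFunOn q Om (q z) = z := fun z hz =>
    hqi.leftInvOn_invFunOn hz
  refine ⟨Function.invFunOn q Om, ?_, ?_, ?_, hleft⟩
  · rintro w ⟨h1, h2⟩
    obtain ⟨z, hz, rfl⟩ := hqs w h1 h2
    apply ContinuousAt.continuousWithinAt
    rw [ContinuousAt, hleft z hz]
    intro V hV
    obtain ⟨V', hV'V, hV'o, hzV'⟩ := _root_.mem_nhds_iff.1 hV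
    have ho : IsOpen (q '' (V' ∩ Om)) := by
      have e : q '' (V' ∩ Om) = ψ '' (hm '' (V' ∩ Om)) := by rw [image_image]
      rw [e]
      apply P.open
      · rintro _ ⟨x, hx, rfl⟩; exact ⟨x, hx.2, rfl⟩
      · rw [isOpen_iff_mem_nhds]
        rintro _ ⟨x, hx, rfl⟩
        rw [← map_nhds hx.2]
        exact image_mem_map ((hV'o.inter Om_open).mem_nhds hx)
    rw [mem_map]
    filter_upwards [ho.mem_nhds ⟨z, ⟨hzV', hz⟩, rfl⟩]
    rintro _ ⟨x, hx, rfl⟩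
    show Function.invFunOn q Om (q x) ∈ V
    rw [hleft x hx.2]; exact hV'V hx.1
  · rintro w ⟨h1, h2⟩
    obtain ⟨z, hz, rfl⟩ := hqs w h1 h2
    rw [hleft z hz]; exact hz
  · intro w h1 h2
    obtain ⟨z, hz, rfl⟩ := hqs w h1 h2
    rw [hleft z hz]

/-- on a connected set avoiding the levels between `A` and `B` the function stays on one side -/
lemma side {C : Set ℂ} (hC : IsPreconnected C) {N : ℂ → ℝ} (hN : ContinuousOn N C) {A B : ℝ}
    (hAB : A ≤ B) (hav : ∀ z ∈ C, N z < A ∨ B < N z) :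
    (∀ z ∈ C, N z < A) ∨ ∀ z ∈ C, B < N z := by
  by_contra hcon
  push Not at hcon
  obtain ⟨⟨z, hz, hz'⟩, w, hw, hw'⟩ := hcon
  have h1 : B < N z := (hav z hz).resolve_left (not_lt.2 hz')
  have h2 : N w < A := (hav w hw).resolve_right (not_lt.2 hw')
  have := hC.intermediate_value hw hz hN ⟨h2.le, hAB.trans h1.le⟩
  obtain ⟨v, hv, hvA⟩ := this
  rcases hav v hv with h | h
  · linarith
  · linarith

/-- the two ends are mapped to different ends -/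
lemma PsiD.ends {ψ : ℂ → ℂ} {rs : ℝ} (P : PsiD ψ rs) {A B : ℝ} (hA : rs < A) (hAB : A ≤ B)
    (hB : B < 1) : ∃ α β : ℝ, 1 < α ∧ α ≤ β ∧ β < Real.exp (1 / 16) ∧
    (((∀ z ∈ Om, ‖z‖ < α → ‖ψ (hm z)‖ < A) ∧ (∀ z ∈ Om, β < ‖z‖ → B < ‖ψ (hm z)‖)) ∨
    ((∀ z ∈ Om, ‖z‖ < α → B < ‖ψ (hm z)‖) ∧ (∀ z ∈ Om, β < ‖z‖ → ‖ψ (hm z)‖ < A))) := by
  obtain ⟨p, hpc, hpm, hqp, hpq⟩ := P.inv
  have hA0 : 0 < A := P.h0.trans_lt hA
  set Kw : Set ℂ := closedBall 0 B \ ball 0 A with hKw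
  have hKwc : IsCompact Kw := (isCompact_closedBall 0 B).diff isOpen_ball
  have hKws : Kw ⊆ {w : ℂ | rs < ‖w‖ ∧ ‖w‖ < 1} := by
    rintro w ⟨h1, h2⟩
    rw [mem_closedBall_zero_iff] at h1
    rw [mem_ball_zero_iff, not_lt] at h2
    exact ⟨hA.trans_le h2, h1.trans_lt hB⟩
  have hKc : IsCompact (p '' Kw) := hKwc.image_of_continuousOn (hpc.mono hKws)
  have hKwn : Kw.Nonempty := by
    refine ⟨(A : ℂ), ?_, ?_⟩
    · rw [mem_closedBall_zero_iff, Complex.norm_real, Real.norm_of_nonneg hA0.le]; exact hAB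
    · rw [mem_ball_zero_iff, Complex.norm_real, Real.norm_of_nonneg hA0.le]; exact lt_irrefl _
  have hKn : (p '' Kw).Nonempty := hKwn.image _
  obtain ⟨z1, hz1, hmin⟩ := hKc.exists_isMinOn hKn continuous_norm.continuousOn
  obtain ⟨z2, hz2, hmax⟩ := hKc.exists_isMaxOn hKn continuous_norm.continuousOn
  have hKOm : p '' Kw ⊆ Om := by
    rintro _ ⟨w, hw, rfl⟩; exact hpm (hKws hw)
  set α := ‖z1‖ with hα
  set β := ‖z2‖ with hβ
  have hα1 : 1 < α := (hKOm hz1).1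
  have hβ1 : β < Real.exp (1 / 16) := (hKOm hz2).2
  have hαβ : α ≤ β := hmin hz2
  have hmid : ∀ z ∈ Om, A ≤ ‖ψ (hm z)‖ → ‖ψ (hm z)‖ ≤ B → α ≤ ‖z‖ ∧ ‖z‖ ≤ β := by
    intro z hz h1 h2
    have hw : ψ (hm z) ∈ Kw := by
      refine ⟨mem_closedBall_zero_iff.2 h2, ?_⟩
      rw [mem_ball_zero_iff, not_lt]; exact h1
    have : z ∈ p '' Kw := ⟨_, hw, hpq z hz⟩
    exact ⟨hmin this, hmax this⟩
  have hNc : ContinuousOn (fun z => ‖ψ (hm z)‖) Om :=
    continuous_norm.comp_continuousOn (P.d.continuousOn.comp hm_cont (fun z hz => ⟨z, hz, rfl⟩))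
  have hout : ∀ z ∈ Om, (‖z‖ < α ∨ β < ‖z‖) → ‖ψ (hm z)‖ < A ∨ B < ‖ψ (hm z)‖ := by
    intro z hz h
    by_contra hcon
    push Not at hcon
    obtain ⟨h1, h2⟩ := hmid z hz hcon.1 hcon.2
    rcases h with h | h <;> linarith
  have s1sub : ann 1 α ⊆ Om := fun z hz => ⟨hz.1, hz.2.trans (hαβ.trans_lt hβ1)⟩
  have s2sub : ann β (Real.exp (1 / 16)) ⊆ Om := fun z hz => ⟨(hα1.trans_le hαβ).trans hz.1, hz.2⟩
  have c1 := side (ann_preconnected (a := 1) (b := α) (by norm_num)) (hNc.mono s1sub) hAB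
    (fun z hz => hout z (s1sub hz) (Or.inl hz.2))
  have c2 := side (ann_preconnected (a := β) (b := Real.exp (1 / 16)) (by linarith))
    (hNc.mono s2sub) hAB (fun z hz => hout z (s2sub hz) (Or.inr hz.1))
  -- compact middle part
  set M : Set ℂ := closedBall 0 β \ ball 0 α with hM
  have hMc : IsCompact M := (isCompact_closedBall 0 β).diff isOpen_ball
  have hMs : M ⊆ Om := by
    rintro w ⟨h1, h2⟩
    rw [mem_closedBall_zero_iff] at h1
    rw [mem_ball_zero_iff, not_lt] at h2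
    exact ⟨hα1.trans_le h2, h1.trans_lt hβ1⟩
  have hMn : M.Nonempty := by
    refine ⟨z1, ?_, ?_⟩
    · rw [mem_closedBall_zero_iff]; exact hαβ
    · rw [mem_ball_zero_iff]; exact lt_irrefl _
  have htri : ∀ z ∈ Om, z ∈ ann 1 α ∨ z ∈ M ∨ z ∈ ann β (Real.exp (1 / 16)) := by
    intro z hz
    rcases lt_or_ge ‖z‖ α with h | h
    · left; exact ⟨hz.1, h⟩
    · rcases lt_or_ge β ‖z‖ with h' | h'
      · right; right; exact ⟨h', hz.2⟩
      · right; left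
        exact ⟨mem_closedBall_zero_iff.2 h', by rw [mem_ball_zero_iff, not_lt]; exact h⟩
  refine ⟨α, β, hα1, hαβ, hβ1, ?_⟩
  rcases c1 with c1 | c1
  · rcases c2 with c2 | c2
    · exfalso
      obtain ⟨z3, hz3, hz3'⟩ := hMc.exists_isMaxOn hMn (hNc.mono hMs)
      have h3 : max A ‖ψ (hm z3)‖ < 1 :=
        max_lt (hAB.trans_lt hB) (P.maps ⟨z3, hMs hz3, rfl⟩).2
      obtain ⟨t, ht1, ht2⟩ := exists_between h3
      have ht0 : 0 < t := hA0.trans ((le_max_left _ _).trans_lt ht1)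
      have hw : rs < ‖(t : ℂ)‖ ∧ ‖(t : ℂ)‖ < 1 := by
        rw [Complex.norm_real, Real.norm_of_nonneg ht0.le]
        exact ⟨hA.trans ((le_max_left _ _).trans_lt ht1), ht2⟩
      have hz := hpm hw
      have e : ‖ψ (hm (p (t : ℂ)))‖ = t := by
        rw [hqp _ hw.1 hw.2, Complex.norm_real, Real.norm_of_nonneg ht0.le]
      have h4 := le_max_left A ‖ψ (hm z3)‖
      have h5 := le_max_right A ‖ψ (hm z3)‖
      rcases htri _ hz with h | h | h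
      · have := c1 _ h; rw [e] at this; linarith
      · have h6 : ‖ψ (hm (p (t : ℂ)))‖ ≤ ‖ψ (hm z3)‖ := hz3' h
        rw [e] at h6; linarith
      · have := c2 _ h; rw [e] at this; linarith
    · left
      exact ⟨fun z hz h => c1 z ⟨hz.1, h⟩, fun z hz h => c2 z ⟨h, hz.2⟩⟩
  · rcases c2 with c2 | c2
    · right
      exact ⟨fun z hz h => c1 z ⟨hz.1, h⟩, fun z hz h => c2 z ⟨h, hz.2⟩⟩
    · exfalso
      obtain ⟨z3, hz3, hz3'⟩ := hMc.exists_isMinOn hMn (hNc.mono hMs)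
      have h3 : rs < min B ‖ψ (hm z3)‖ :=
        lt_min (hA.trans_le hAB) (P.maps ⟨z3, hMs hz3, rfl⟩).1
      obtain ⟨t, ht1, ht2⟩ := exists_between h3
      have ht0 : 0 < t := P.h0.trans_lt ht1
      have h4 := min_le_left B ‖ψ (hm z3)‖
      have h5 := min_le_right B ‖ψ (hm z3)‖
      have hw : rs < ‖(t : ℂ)‖ ∧ ‖(t : ℂ)‖ < 1 := by
        rw [Complex.norm_real, Real.norm_of_nonneg ht0.le]
        exact ⟨ht1, by linarith⟩
      have hz := hpm hw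
      have e : ‖ψ (hm (p (t : ℂ)))‖ = t := by
        rw [hqp _ hw.1 hw.2, Complex.norm_real, Real.norm_of_nonneg ht0.le]
      rcases htri _ hz with h | h | h
      · have := c1 _ h; rw [e] at this; linarith
      · have h6 : ‖ψ (hm z3)‖ ≤ ‖ψ (hm (p (t : ℂ)))‖ := hz3' h
        rw [e] at h6; linarith
      · have := c2 _ h; rw [e] at this; linarith

end Pool.Agent.H366R3.MB
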