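import Mathlib
import Pool.Agent.H366R3.Energy2

set_option autoImplicit false

open Set Filter Topology Metric

namespace Pool.Agent.H366R3.MB

open Pool.Agent.H366R3
open Complex (I)

lemma periodic_arg_cont {E : Type*} [TopologicalSpace E] {q : ℝ → E} (hc : Continuous q)
    (hp : Function.Periodic q (2 * Real.pi)) {u : ℂ} (hu : u ≠ 0) :
    ContinuousAt (fun u => q (Complex.arg u)) u := by
  have h1 : ∀ w : ℂ, w ≠ 0 → q (Complex.arg w) = q (Complex.arg u + Complex.arg (w / u)) := by
    intro w hw
    have h2 : (Complex.arg w : Real.Angle) = ((Complex.arg u + Complex.arg (w / u) : ℝ) : Real.Angle) := by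
      have := Complex.arg_mul_coe_angle hu (div_ne_zero hw hu)
      have e : u * (w / u) = w := by field_simp
      rw [e] at this
      rw [this, Real.Angle.coe_add]
    obtain ⟨k, hk⟩ := Real.Angle.angle_eq_iff_two_pi_dvd_sub.1 h2
    have h3 : Complex.arg w = Complex.arg u + Complex.arg (w / u) + k * (2 * Real.pi) := by
      linarith
    rw [h3]
    exact (hp.int_mul k) _
  have h2 : ContinuousAt (fun w => q (Complex.arg u + Complex.arg (w / u))) u := by
    apply hc.continuousAt.comp
    apply continuousAt_const.add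
    have h3 : u / u ∈ Complex.slitPlane := by rw [div_self hu]; exact Complex.one_mem_slitPlane
    exact ContinuousAt.comp (g := Complex.arg) (f := fun w => w / u)
      (Complex.continuousAt_arg h3) (continuousAt_id.div_const u)
  refine h2.congr ?_
  filter_upwards [isOpen_ne.mem_nhds hu] with w hw
  exact (h1 w hw).symm

/-- a circle around a point of the complement is not the image of a null homotopic circle -/
lemma no_fill2 {Ω Ω' V : Set ℂ} {g e : ℂ → ℂ} {q : ℝ → ℂ} {ρ : ℝ} (hρ : 0 < ρ)
    (hc : (0 : ℂ) ∉ Ω) (hg : ContinuousOn g Ω') (hmaps : MapsTo g Ω' Ω)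
    (he : ContinuousOn e V) (heV : MapsTo e V Ω') (hV : Convex ℝ V)
    (hqc : Continuous q) (hqp : Function.Periodic q (2 * Real.pi)) (hqV : ∀ t, q t ∈ V)
    (hgq : ∀ t, g (e (q t)) = circleMap 0 ρ t) : False := by
  set v0 : ℂ := q 0 with hv0
  have hv0V : v0 ∈ V := hqV 0
  obtain ⟨B, hB⟩ := (isCompact_Icc (a := -Real.pi) (b := Real.pi)).exists_bound_of_continuousOn
    hqc.continuousOn
  set E : ℂ → ℂ := fun u => ((1 - ‖u‖ : ℝ) : ℂ) * v0 + (‖u‖ : ℂ) * q (Complex.arg u) with hE
  have hEc : Continuous E := by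
    rw [continuous_iff_continuousAt]
    intro u
    have h1 : ContinuousAt (fun u : ℂ => ((1 - ‖u‖ : ℝ) : ℂ) * v0) u := by
      apply Continuous.continuousAt
      fun_prop
    apply h1.add
    by_cases hu : u = 0
    · rw [hu]
      have h2 : Tendsto (fun u : ℂ => (‖u‖ : ℂ) * q (Complex.arg u)) (𝓝 0) (𝓝 0) := by
        apply squeeze_zero_norm (a := fun u => ‖u‖ * |B|)
        · intro u
          rw [norm_mul, Complex.norm_real, norm_norm]
          gcongr
          exact (hB _ ⟨(Complex.neg_pi_lt_arg u).le, Complex.arg_le_pi u⟩).trans (le_abs_self B)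
        · have : Tendsto (fun u : ℂ => ‖u‖ * |B|) (𝓝 0) (𝓝 (‖(0:ℂ)‖ * |B|)) := by
            apply Continuous.tendsto; fun_prop
          simpa using this
      rw [ContinuousAt]
      simpa using h2
    · exact ((Complex.continuous_ofReal.comp continuous_norm).continuousAt).mul
        (periodic_arg_cont hqc hqp hu)
  have hEV : ∀ u ∈ closedBall (0 : ℂ) 1, E u ∈ V := by
    intro u hu
    rw [mem_closedBall_zero_iff] at hu
    have := hV hv0V (hqV (Complex.arg u)) (by linarith : 0 ≤ 1 - ‖u‖) (norm_nonneg u) (by ring)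
    rw [hE]
    simpa [Complex.real_smul] using this
  set G : ℂ → ℂ := fun u => g (e (E u)) with hG
  have hGc : ContinuousOn G (closedBall 0 1) :=
    hg.comp (he.comp hEc.continuousOn (fun u hu => hEV u hu)) (fun u hu => heV (hEV u hu))
  have hGΩ : ∀ u ∈ closedBall (0 : ℂ) 1, G u ∈ Ω := fun u hu => hmaps (heV (hEV u hu))
  have hGne : ∀ u ∈ closedBall (0 : ℂ) 1, G u ≠ 0 := by
    intro u hu h0
    apply hc
    rw [← h0]; exact hGΩ u hu
  -- the self map
  set T : ℂ → ℂ := fun u => -((G (clamp 0 1 u)) / (‖G (clamp 0 1 u)‖ : ℂ)) with hT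
  have hcl : ∀ u, clamp (0 : ℂ) 1 u ∈ closedBall (0 : ℂ) 1 := fun u => clamp_mem one_pos u
  have hTc : Continuous T := by
    have h1 : Continuous fun u => G (clamp 0 1 u) :=
      (hGc.comp_continuous (clamp_continuous one_pos) hcl)
    apply Continuous.neg
    apply h1.div (Complex.continuous_ofReal.comp h1.norm)
    intro u
    have := norm_ne_zero_iff.2 (hGne _ (hcl u))
    show ((‖G (clamp 0 1 u)‖ : ℝ) : ℂ) ≠ 0
    exact_mod_cast this
  have hTn : ∀ u, ‖T u‖ = 1 := by
    intro u
    have := norm_ne_zero_iff.2 (hGne _ (hcl u))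
    rw [hT]
    simp only
    rw [norm_neg, norm_div, Complex.norm_real, norm_norm, div_self this]
  obtain ⟨u, hu⟩ := Pool.Agent.Helper133.Brouwer.brouwer T hTc 1 (fun x => (hTn x).le)
  have hun : ‖u‖ = 1 := by rw [← hu]; exact hTn u
  have hu0 : u ≠ 0 := by rintro rfl; rw [norm_zero] at hun; linarith
  have hclu : clamp (0 : ℂ) 1 u = u := clamp_eq one_pos (by rw [mem_closedBall_zero_iff, hun])
  have hGu : G u = ρ * u := by
    have h1 : E u = q (Complex.arg u) := by
      rw [hE]; simp [hun]
    rw [hG]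
    simp only
    rw [h1, hgq, circleMap, zero_add]
    have := Complex.norm_mul_exp_arg_mul_I u
    rw [hun, Complex.ofReal_one, one_mul] at this
    rw [this]
  have hTu : T u = -u := by
    rw [hT]
    simp only
    rw [hclu, hGu, norm_mul, Complex.norm_real, hun, mul_one,
      Real.norm_of_nonneg hρ.le]
    have : (ρ : ℂ) ≠ 0 := by exact_mod_cast hρ.ne'
    field_simp
  rw [hu] at hTu
  have : u = 0 := by
    have h2 : u + u = 0 := by
      nth_rewrite 1 [hTu]; ring
    have h3 : (2 : ℂ) * u = 0 := by rw [two_mul]; exact h2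
    rcases mul_eq_zero.1 h3 with h | h
    · norm_num at h
    · exact h
  exact hu0 this

end Pool.Agent.H366R3.MB
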