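import Mathlib
import Pool.Agent.H366R3.MB.NoFill2
import Pool.Agent.H366R3.MB.Map

set_option autoImplicit false

open Set Filter Topology Metric MeasureTheory
open scoped Real

namespace Pool.Agent.H366R3.MB

open Pool.Agent.H366R3.ED
open Complex (I)

/-- the angular derivative of the argument of a self homeomorphism of the annulus has mean square at
least one on every circle -/
lemma wind {f g : ℂ → ℂ} (hg : ContinuousOn g Om) (hgm : MapsTo g Om Om) (hfm : MapsTo f Om Om)
    (hgf : ∀ z ∈ Om, g (f z) = z) {ρ : ℝ} (hρ : 1 < ρ) (hρ' : ρ < Real.exp (1 / 16)) {Q : ℝ → ℂ}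
    (hQ : Continuous Q) (hQp : Function.Periodic Q (2 * π))
    (hd : ∀ t : ℝ, HasDerivAt (fun t => f (circleMap 0 ρ t)) (Q t * f (circleMap 0 ρ t)) t) :
    2 * π ≤ ∫ t in (-π)..π, (Q t).im ^ 2 := by
  have hcm : ∀ t, circleMap 0 ρ t ∈ Om := fun t =>
    circleMap_mem_ann (by norm_num) ⟨hρ, hρ'⟩
  have hfc : ∀ t, f (circleMap 0 ρ t) ∈ Om := fun t => hfm (hcm t)
  set q : ℝ → ℂ := fun t => Complex.log (f (circleMap 0 ρ 0)) + ∫ s in (0 : ℝ)..t, Q s with hq
  have hqd : ∀ t, HasDerivAt q (Q t) t := fun t =>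
    (intervalIntegral.integral_hasDerivAt_right (hQ.intervalIntegrable _ _)
      (hQ.stronglyMeasurableAtFilter _ _) hQ.continuousAt).const_add _
  have hqc : Continuous q := continuous_iff_continuousAt.2 fun t => (hqd t).continuousAt
  have hexp : ∀ t, Complex.exp (q t) = f (circleMap 0 ρ t) := by
    have h1 : ∀ t, HasDerivAt (fun t => f (circleMap 0 ρ t) * Complex.exp (-q t)) 0 t := by
      intro t
      have := (hd t).mul (hqd t).neg.cexp
      have e : Q t * f (circleMap 0 ρ t) * Complex.exp (-q t) + f (circleMap 0 ρ t) *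
          (Complex.exp (-q t) * -Q t) = 0 := by ring
      simp only [Pi.neg_apply] at this
      rw [e] at this
      exact this
    intro t
    have h2 := is_const_of_deriv_eq_zero (fun t => (h1 t).differentiableAt)
      (fun t => (h1 t).deriv) t 0
    have h3 : q 0 = Complex.log (f (circleMap 0 ρ 0)) := by rw [hq]; simp
    rw [h3] at h2
    have h4 : f (circleMap 0 ρ 0) * Complex.exp (-Complex.log (f (circleMap 0 ρ 0))) = 1 := by
      rw [Complex.exp_neg, Complex.exp_log (Om_ne (hfc 0)), mul_inv_cancel₀ (Om_ne (hfc 0))]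
    rw [h4] at h2
    rw [Complex.exp_neg] at h2
    have h5 := Complex.exp_ne_zero (q t)
    field_simp at h2
    exact h2.symm
  -- periods
  have h1 : Complex.exp (q (2 * π)) = Complex.exp (q 0) := by
    rw [hexp, hexp]
    congr 1
    have := periodic_circleMap 0 ρ 0
    rw [zero_add] at this
    exact this
  obtain ⟨n, hn⟩ := Complex.exp_eq_exp_iff_exists_int.1 h1
  have h2 : ∫ s in (0 : ℝ)..(2 * π), Q s = n * (2 * π * I) := by
    have : q (2 * π) - q 0 = ∫ s in (0 : ℝ)..(2 * π), Q s := by rw [hq]; simp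
    rw [← this, hn]; ring
  have h3 : n ≠ 0 := by
    rintro rfl
    have hqp : Function.Periodic q (2 * π) := by
      intro t
      have : q (t + 2 * π) = q t + ∫ s in t..(t + 2 * π), Q s := by
        rw [hq]
        simp only
        rw [add_assoc, intervalIntegral.integral_add_adjacent_intervals
          (hQ.intervalIntegrable _ _) (hQ.intervalIntegrable _ _)]
      rw [this, hQp.intervalIntegral_add_eq t 0, zero_add, h2]
      simp
    have hconv : Convex ℝ {ζ : ℂ | 0 < ζ.re ∧ ζ.re < 1 / 16} := by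
      have : {ζ : ℂ | 0 < ζ.re ∧ ζ.re < 1 / 16} = Complex.reLm ⁻¹' (Ioo 0 (1 / 16)) := rfl
      rw [this]
      exact (convex_Ioo _ _).linear_preimage _
    refine no_fill2 (Ω := Om) (Ω' := Om) (V := {ζ : ℂ | 0 < ζ.re ∧ ζ.re < 1 / 16}) (g := g)
      (e := Complex.exp) (q := q) (ρ := ρ) (by linarith) (fun h => Om_ne h rfl) hg hgm
      Complex.continuous_exp.continuousOn (fun ζ hζ => exp_mem_Om.2 hζ) hconv hqc hqp ?_ ?_
    · intro t
      apply exp_mem_Om.1
      rw [hexp]; exact hfc t
    · intro t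
      rw [hexp, hgf _ (hcm t)]
  have h4 : ∫ t in (-π)..π, Q t = n * (2 * π * I) := by
    have := hQp.intervalIntegral_add_eq (-π) 0
    have e : -π + 2 * π = π := by ring
    rw [e, zero_add] at this
    rw [this, h2]
  have h5 : ∫ t in (-π)..π, (Q t).im = n * (2 * π) := by
    have e1 : ∫ t in (-π)..π, (Q t).im = (∫ t in (-π)..π, Q t).im := by
      have := Complex.imCLM.intervalIntegral_comp_comm (hQ.intervalIntegrable (μ := volume) (-π) π)
      exact this
    rw [e1, h4]
    simp
  have hqi : Continuous fun t => (Q t).im := Complex.continuous_im.comp hQ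
  have h6 : ∫ t in (-π)..π, (2 * (n : ℝ) * (Q t).im - (n : ℝ) ^ 2) ≤ ∫ t in (-π)..π, (Q t).im ^ 2 := by
    apply intervalIntegral.integral_mono_on (by linarith [Real.pi_pos])
    · apply Continuous.intervalIntegrable; fun_prop
    · apply Continuous.intervalIntegrable; fun_prop
    · intro t _
      nlinarith [sq_nonneg ((Q t).im - n)]
  have h7 : ∫ t in (-π)..π, (2 * (n : ℝ) * (Q t).im - (n : ℝ) ^ 2) = 2 * π * (n : ℝ) ^ 2 := by
    rw [intervalIntegral.integral_sub, intervalIntegral.integral_const_mul, h5,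
      intervalIntegral.integral_const]
    · simp only [smul_eq_mul]; ring
    · apply Continuous.intervalIntegrable; fun_prop
    · apply Continuous.intervalIntegrable; fun_prop
  have h8 : (1 : ℝ) ≤ (n : ℝ) ^ 2 := by
    have : (1 : ℤ) ≤ n ^ 2 := by
      have := sq_pos_of_ne_zero (a := n) h3
      omega
    exact_mod_cast this
  rw [h7] at h6
  nlinarith [Real.pi_pos]

end Pool.Agent.H366R3.MB
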