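import Mathlib
import Pool.Agent.H366R3.MB.Wind
import Pool.Agent.H366R3.Energy1

set_option autoImplicit false

open Set Filter Topology Metric MeasureTheory
open scoped Real ENNReal NNReal

namespace Pool.Agent.H366R3.MB

open Pool.Agent.H366R3 Pool.Agent.H366R3.ED
open Complex (I)

/-- energy density -/
noncomputable def en (g : ℂ → ℂ) (z : ℂ) : ℝ≥0∞ :=
  (((‖fderiv ℝ g z 1‖₊ ^ 2 + ‖fderiv ℝ g z Complex.I‖₊ ^ 2 : ℝ≥0)) : ℝ≥0∞)

lemma en_eq (g : ℂ → ℂ) (z : ℂ) :
    en g z = ENNReal.ofReal (‖fderiv ℝ g z 1‖ ^ 2 + ‖fderiv ℝ g z Complex.I‖ ^ 2) := by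
  rw [ENNReal.ofReal_eq_coe_nnreal (by positivity)]
  unfold en
  congr 1

/-- the density in front of the determinant -/
noncomputable def Uw (w : ℂ) : ℝ := 2 * Real.sinh (uu (Complex.log w)) ^ 2 / ‖w‖ ^ 2

lemma Uw_nonneg (w : ℂ) : 0 ≤ Uw w := by unfold Uw; positivity

lemma im_sq {z : ℂ} (hz : z ≠ 0) : ((1 / z).im) ^ 2 + ((I / z).im) ^ 2 = 1 / ‖z‖ ^ 2 := by
  rw [← Complex.normSq_eq_norm_sq]
  have h : Complex.normSq z ≠ 0 := fun h => hz (Complex.normSq_eq_zero.1 h)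
  rw [Complex.div_im, Complex.div_im]
  simp only [Complex.one_re, Complex.one_im, Complex.I_re, Complex.I_im]
  have h2 := Complex.normSq_apply z
  field_simp
  rw [h2]; ring

lemma en_hm {z : ℂ} (hz : z ≠ 0) : en hm z = ENNReal.ofReal (Uw z) + ENNReal.ofReal (1 / ‖z‖ ^ 2) := by
  rw [en_eq, ← ENNReal.ofReal_add (Uw_nonneg z) (by positivity), (hm_fderiv hz).fderiv,
    DM_normSq, DM_normSq, ← im_sq hz]
  congr 1
  unfold Uw
  simp only [norm_one, Complex.norm_I]
  ring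

/-- the argument part -/
noncomputable def Sg (f : ℂ → ℂ) (z : ℂ) : ℝ :=
  ((fderiv ℝ f z 1 / f z).im) ^ 2 + ((fderiv ℝ f z I / f z).im) ^ 2

lemma clm_im (A : ℂ →L[ℝ] ℂ) (v w : ℂ) :
    ((A v / w).im) ^ 2 ≤ ‖v‖ ^ 2 * (((A 1 / w).im) ^ 2 + ((A I / w).im) ^ 2) := by
  have h1 : A v = v.re * A 1 + v.im * A I := by
    have : v = v.re • (1 : ℂ) + v.im • I := by simp [Complex.re_add_im]
    conv_lhs => rw [this]
    rw [map_add, map_smul, map_smul]
    simp [Complex.real_smul]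
  have h2 : (A v / w).im = v.re * (A 1 / w).im + v.im * (A I / w).im := by
    rw [h1, add_div, mul_div_assoc, mul_div_assoc, Complex.add_im, Complex.im_ofReal_mul,
      Complex.im_ofReal_mul]
  rw [h2, ← Complex.normSq_eq_norm_sq, Complex.normSq_apply]
  nlinarith [sq_nonneg (v.re * (A I / w).im - v.im * (A 1 / w).im)]

lemma Sg_bound {f g : ℂ → ℂ} (hf : ContDiffOn ℝ 1 f Om) (hg : ContinuousOn g Om)
    (hgm : MapsTo g Om Om) (hfm : MapsTo f Om Om) (hgf : ∀ z ∈ Om, g (f z) = z) :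
    ∫⁻ z in Om, ENNReal.ofReal (1 / ‖z‖ ^ 2) ≤ ∫⁻ z in Om, ENNReal.ofReal (Sg f z) := by
  have hfd : ContinuousOn (fun z => fderiv ℝ f z) Om :=
    hf.continuousOn_fderiv_of_isOpen Om_open le_rfl
  have hSc : ContinuousOn (Sg f) Om := by
    unfold Sg
    have h1 : ContinuousOn (fun z => fderiv ℝ f z 1 / f z) Om :=
      (hfd.clm_apply continuousOn_const).div hf.continuousOn (fun z hz => Om_ne (hfm hz))
    have h2 : ContinuousOn (fun z => fderiv ℝ f z I / f z) Om :=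
      (hfd.clm_apply continuousOn_const).div hf.continuousOn (fun z hz => Om_ne (hfm hz))
    exact ((Complex.continuous_im.comp_continuousOn h1).pow 2).add
      ((Complex.continuous_im.comp_continuousOn h2).pow 2)
  unfold Om
  rw [polar_lint (by norm_num), polar_lint (by norm_num)]
  rw [setLIntegral_prod (fun p : ℝ × ℝ => ENNReal.ofReal p.1 *
    ENNReal.ofReal (Sg f (circleMap 0 p.1 p.2)))]
  swap
  · apply ContinuousOn.aemeasurable _ (measurableSet_Ioo.prod measurableSet_Ioo)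
    have h1 : ContinuousOn (fun p : ℝ × ℝ => Sg f (circleMap 0 p.1 p.2))
        (Ioo 1 (Real.exp (1 / 16)) ×ˢ Ioo (-π) π) := by
      apply hSc.comp circleMap_cont.continuousOn
      intro p hp
      exact circleMap_mem_ann (by norm_num) hp.1
    have h2 : ContinuousOn (fun p : ℝ × ℝ => p.1 * Sg f (circleMap 0 p.1 p.2))
        (Ioo 1 (Real.exp (1 / 16)) ×ˢ Ioo (-π) π) := continuousOn_fst.mul h1
    refine (ENNReal.continuous_ofReal.comp_continuousOn h2).congr ?_
    intro p hp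
    simp only [Function.comp_apply]
    rw [ENNReal.ofReal_mul (by linarith [hp.1.1])]
  rw [← Measure.prod_restrict]
  refine (lintegral_prod_le _).trans ?_
  apply setLIntegral_mono' measurableSet_Ioo
  intro ρ hρ
  have hρ0 : 0 < ρ := by linarith [hρ.1]
  have hcm : ∀ t, circleMap 0 ρ t ∈ Om := fun t =>
    circleMap_mem_ann (by norm_num) hρ
  simp only
  rw [lintegral_const_mul' _ _ ENNReal.ofReal_ne_top, lintegral_const_mul' _ _ ENNReal.ofReal_ne_top]
  gcongr 1
  -- the circle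
  set Q : ℝ → ℂ := fun t => fderiv ℝ f (circleMap 0 ρ t) (circleMap 0 ρ t * I) / f (circleMap 0 ρ t)
    with hQ
  have hcc : Continuous (circleMap 0 ρ) := continuous_circleMap 0 ρ
  have hQc : Continuous Q := by
    apply Continuous.div
    · exact (hfd.comp_continuous hcc hcm).clm_apply (hcc.mul continuous_const)
    · exact hf.continuousOn.comp_continuous hcc hcm
    · intro t; exact Om_ne (hfm (hcm t))
  have hQp : Function.Periodic Q (2 * π) := by
    intro t
    rw [hQ]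
    simp only
    rw [periodic_circleMap 0 ρ t]
  have hd : ∀ t : ℝ, HasDerivAt (fun t => f (circleMap 0 ρ t)) (Q t * f (circleMap 0 ρ t)) t := by
    intro t
    have h1 : HasFDerivAt f (fderiv ℝ f (circleMap 0 ρ t)) (circleMap 0 ρ t) :=
      ((hf.contDiffAt (Om_open.mem_nhds (hcm t))).differentiableAt one_ne_zero).hasFDerivAt
    have h2 := h1.comp_hasDerivAt t (hasDerivAt_circleMap 0 ρ t)
    rw [hQ]
    simp only
    rw [div_mul_cancel₀ _ (Om_ne (hfm (hcm t)))]
    exact h2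
  have hw := wind hg hgm hfm hgf hρ.1 hρ.2 hQc hQp hd
  have hn : ∀ t, ‖circleMap 0 ρ t‖ = ρ := fun t => by
    rw [norm_circleMap_zero, abs_of_pos hρ0]
  have hb : ∀ t, (Q t).im ^ 2 / ρ ^ 2 ≤ Sg f (circleMap 0 ρ t) := by
    intro t
    have := clm_im (fderiv ℝ f (circleMap 0 ρ t)) (circleMap 0 ρ t * I) (f (circleMap 0 ρ t))
    rw [norm_mul, Complex.norm_I, mul_one, hn] at this
    rw [div_le_iff₀ (by positivity)]
    unfold Sg
    linarith
  have hqi : Continuous fun t => (Q t).im ^ 2 / ρ ^ 2 :=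
    ((Complex.continuous_im.comp hQc).pow 2).div_const _
  have hint : ∫⁻ t in Ioo (-π) π, ENNReal.ofReal ((Q t).im ^ 2 / ρ ^ 2) =
      ENNReal.ofReal (∫ t in (-π)..π, (Q t).im ^ 2 / ρ ^ 2) := by
    rw [intervalIntegral.integral_of_le (by linarith [Real.pi_pos]), integral_Ioc_eq_integral_Ioo,
      ofReal_integral_eq_lintegral_ofReal]
    · exact (hqi.integrableOn_Icc (a := -π) (b := π)).mono_set Ioo_subset_Icc_self
    · exact Eventually.of_forall fun t => by positivity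
  calc ∫⁻ t in Ioo (-π) π, ENNReal.ofReal (1 / ‖circleMap 0 ρ t‖ ^ 2)
      = ENNReal.ofReal (1 / ρ ^ 2) * ENNReal.ofReal (2 * π) := by
        simp_rw [hn]
        rw [setLIntegral_const, Real.volume_Ioo]
        congr 2; ring
    _ = ENNReal.ofReal (2 * π / ρ ^ 2) := by
        rw [← ENNReal.ofReal_mul (by positivity)]; congr 1; ring
    _ ≤ ENNReal.ofReal (∫ t in (-π)..π, (Q t).im ^ 2 / ρ ^ 2) := by
        apply ENNReal.ofReal_le_ofReal
        rw [intervalIntegral.integral_div]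
        gcongr
    _ = ∫⁻ t in Ioo (-π) π, ENNReal.ofReal ((Q t).im ^ 2 / ρ ^ 2) := hint.symm
    _ ≤ _ := lintegral_mono fun t => ENNReal.ofReal_le_ofReal (hb t)

theorem min_energy {g kg : ℂ → ℂ} (hg : ContDiffOn ℝ 1 g Om) (hgm : MapsTo g Om Ot)
    (hk : ContDiffOn ℝ 1 kg Ot) (hkm : MapsTo kg Ot Om) (h1 : ∀ z ∈ Om, kg (g z) = z)
    (h2 : ∀ w ∈ Ot, g (kg w) = w) : ∫⁻ z in Om, en hm z ≤ ∫⁻ z in Om, en g z := by
  set f : ℂ → ℂ := fun z => km (g z) with hf
  have hkmc : ContDiffOn ℝ 1 km Ot := fun w hw => (km_contDiffAt hw).contDiffWithinAt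
  have hfc : ContDiffOn ℝ 1 f Om := hkmc.comp hg hgm
  have hfm : MapsTo f Om Om := fun z hz => km_mem (hgm hz)
  have hgfm : ∀ z ∈ Om, kg (hm (f z)) = z := fun z hz => by
    rw [hf]
    simp only
    rw [hm_km (hgm hz), h1 z hz]
  have hfinj : InjOn f Om := by
    intro z hz w hw he
    rw [← hgfm z hz, ← hgfm w hw, he]
  have hfsurj : f '' Om = Om := by
    apply Subset.antisymm
    · rintro _ ⟨z, hz, rfl⟩; exact hfm hz
    · intro w hw
      refine ⟨kg (hm w), hkm ⟨w, hw, rfl⟩, ?_⟩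
      rw [hf]
      simp only
      rw [h2 _ ⟨w, hw, rfl⟩, km_hm hw]
  have hgcont : ContinuousOn (fun w => kg (hm w)) Om := by
    apply hk.continuousOn.comp (fun z hz => (hm_contDiffAt (Om_ne hz)).continuousAt.continuousWithinAt)
    exact fun z hz => ⟨z, hz, rfl⟩
  have hgmm : MapsTo (fun w => kg (hm w)) Om Om := fun w hw => hkm ⟨w, hw, rfl⟩
  have hfd : ∀ z ∈ Om, HasFDerivAt f (fderiv ℝ f z) z := fun z hz =>
    ((hfc.contDiffAt (Om_open.mem_nhds hz)).differentiableAt one_ne_zero).hasFDerivAt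
  have hgd : ∀ z ∈ Om, fderiv ℝ g z = (DM (f z)).comp (fderiv ℝ f z) := by
    intro z hz
    have h3 := (hm_fderiv (Om_ne (hfm hz))).comp z (hfd z hz)
    have h4 : g =ᶠ[𝓝 z] hm ∘ f := by
      filter_upwards [Om_open.mem_nhds hz] with w hw
      rw [Function.comp_apply, hf]
      simp only
      rw [hm_km (hgm hw)]
    exact (h3.congr_of_eventuallyEq h4).fderiv
  have hlow : ∀ z ∈ Om, ENNReal.ofReal |(fderiv ℝ f z).det| * ENNReal.ofReal (Uw (f z)) +
      ENNReal.ofReal (Sg f z) ≤ en g z := by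
    intro z hz
    rw [en_eq, ← ENNReal.ofReal_mul (abs_nonneg _), ← ENNReal.ofReal_add
      (mul_nonneg (abs_nonneg _) (Uw_nonneg _)) (by unfold Sg; positivity), hgd z hz]
    apply ENNReal.ofReal_le_ofReal
    rw [ContinuousLinearMap.comp_apply, ContinuousLinearMap.comp_apply, DM_normSq, DM_normSq]
    have h3 := abs_det_le (fderiv ℝ f z)
    have h4 : 0 ≤ Real.sinh (uu (Complex.log (f z))) ^ 2 / ‖f z‖ ^ 2 := by positivity
    have h5 := mul_le_mul_of_nonneg_left h3 h4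
    unfold Uw Sg
    have e1 : |(fderiv ℝ f z).det| * (2 * Real.sinh (uu (Complex.log (f z))) ^ 2 / ‖f z‖ ^ 2) =
      Real.sinh (uu (Complex.log (f z))) ^ 2 / ‖f z‖ ^ 2 * (2 * |(fderiv ℝ f z).det|) := by ring
    rw [e1]
    have e2 : Real.sinh (uu (Complex.log (f z))) ^ 2 / ‖f z‖ ^ 2 *
        (‖fderiv ℝ f z 1‖ ^ 2 + ‖fderiv ℝ f z I‖ ^ 2) =
        Real.sinh (uu (Complex.log (f z))) ^ 2 * (‖fderiv ℝ f z 1‖ ^ 2 / ‖f z‖ ^ 2) +
        Real.sinh (uu (Complex.log (f z))) ^ 2 * (‖fderiv ℝ f z I‖ ^ 2 / ‖f z‖ ^ 2) := by ring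
    rw [e2] at h5
    linarith
  calc ∫⁻ z in Om, en hm z
      = ∫⁻ z in Om, (ENNReal.ofReal (Uw z) + ENNReal.ofReal (1 / ‖z‖ ^ 2)) :=
        setLIntegral_congr_fun Om_open.measurableSet fun z hz => en_hm (Om_ne hz)
    _ = (∫⁻ z in Om, ENNReal.ofReal (Uw z)) + ∫⁻ z in Om, ENNReal.ofReal (1 / ‖z‖ ^ 2) := by
        rw [lintegral_add_right]
        fun_prop
    _ ≤ (∫⁻ z in Om, ENNReal.ofReal |(fderiv ℝ f z).det| * ENNReal.ofReal (Uw (f z))) +
        ∫⁻ z in Om, ENNReal.ofReal (Sg f z) := by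
        apply add_le_add
        · have := lintegral_image_eq_lintegral_abs_det_fderiv_mul volume Om_open.measurableSet
            (fun z hz => (hfd z hz).hasFDerivWithinAt) hfinj (fun z => ENNReal.ofReal (Uw z))
          rw [hfsurj] at this
          exact this.le
        · exact Sg_bound hfc hgcont hgmm hfm hgfm
    _ ≤ ∫⁻ z in Om, (ENNReal.ofReal |(fderiv ℝ f z).det| * ENNReal.ofReal (Uw (f z)) +
        ENNReal.ofReal (Sg f z)) := le_lintegral_add _ _
    _ ≤ ∫⁻ z in Om, en g z := setLIntegral_mono' Om_open.measurableSet hlow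

lemma finite_energy : ∫⁻ z in Om, en hm z < ⊤ := by
  have hb : ∀ z ∈ Om, en hm z ≤ ENNReal.ofReal 3 := by
    intro z hz
    rw [en_hm (Om_ne hz), ← ENNReal.ofReal_add (Uw_nonneg z) (by positivity)]
    apply ENNReal.ofReal_le_ofReal
    obtain ⟨a, b⟩ := Om_log hz
    have h1 := uu_pos a b
    have h2 := (uu_bounds a b).2
    have h3 := hz.1
    have h4 : Real.sinh (uu (Complex.log z)) ≤ 1 := by
      refine (sinh_le_mul_cosh h1.le).trans ?_
      have := cosh_le' (x := uu (Complex.log z)) (by rw [abs_le]; constructor <;> linarith)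
      nlinarith
    have h5 : 0 ≤ Real.sinh (uu (Complex.log z)) := Real.sinh_nonneg_iff.2 h1.le
    have h6 : 1 ≤ ‖z‖ ^ 2 := by nlinarith
    have h7 : Uw z ≤ 2 := by
      unfold Uw
      rw [div_le_iff₀ (by linarith)]
      nlinarith
    have h8 : 1 / ‖z‖ ^ 2 ≤ 1 := by
      rw [div_le_one (by linarith)]; exact h6
    linarith
  have hv : volume Om < ⊤ := by
    refine (measure_mono (show Om ⊆ ball 0 (Real.exp (1 / 16)) from ?_)).trans_lt
      measure_ball_lt_top
    intro z hz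
    rw [mem_ball_zero_iff]; exact hz.2
  calc ∫⁻ z in Om, en hm z ≤ ∫⁻ _ in Om, ENNReal.ofReal 3 :=
        setLIntegral_mono' Om_open.measurableSet hb
    _ = ENNReal.ofReal 3 * volume Om := setLIntegral_const _ _
    _ < ⊤ := ENNReal.mul_lt_top ENNReal.ofReal_lt_top hv

end Pool.Agent.H366R3.MB
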