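import Mathlib
import Pool.Agent.H366R3.MB.EndsM
import Pool.Agent.H366R3.Energy1

set_option autoImplicit false

open Set Filter Topology Metric MeasureTheory
open scoped ComplexConjugate Real ENNReal

namespace Pool.Agent.H366R3.MB

open Pool.Agent.H366R3 Pool.Agent.H366R3.ED
open Complex (I)

/-- the fundamental rectangle -/
def RR : Set ℂ := {ζ | (0 < ζ.re ∧ ζ.re < 1 / 16) ∧ (-π < ζ.im ∧ ζ.im < π)}

lemma RR_open : IsOpen RR :=
  ((isOpen_lt continuous_const Complex.continuous_re).inter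
    (isOpen_lt Complex.continuous_re continuous_const)).inter
  ((isOpen_lt continuous_const Complex.continuous_im).inter
    (isOpen_lt Complex.continuous_im continuous_const))

lemma HH_mem {ζ : ℂ} (h0 : 0 < ζ.re) (h1 : ζ.re < 1 / 16) : HH ζ ∈ Ot := by
  rw [← hm_exp]
  exact ⟨_, exp_mem_Om.2 ⟨h0, h1⟩, rfl⟩

/-- the composed map in the strip -/
noncomputable def FF (ψ : ℂ → ℂ) (ζ : ℂ) : ℂ := ψ (HH ζ)

/-- conformal factor -/
noncomputable def GG (ψ : ℂ → ℂ) (ζ : ℂ) : ℝ := ‖deriv ψ (HH ζ)‖ / ‖FF ψ ζ‖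

/-- derivative of `FF` -/
noncomputable def DF (ψ : ℂ → ℂ) (ζ : ℂ) : ℂ →L[ℝ] ℂ :=
  ((ContinuousLinearMap.toSpanSingleton ℂ (deriv ψ (HH ζ))).restrictScalars ℝ).comp (DH ζ)

lemma DF_apply (ψ : ℂ → ℂ) (ζ ω : ℂ) : DF ψ ζ ω = DH ζ ω * deriv ψ (HH ζ) := by
  unfold DF
  simp [ContinuousLinearMap.comp_apply]

variable {ψ : ℂ → ℂ} {rs : ℝ}

lemma FF_fderiv (P : PsiD ψ rs) {ζ : ℂ} (h0 : 0 < ζ.re) (h1 : ζ.re < 1 / 16) :
    HasFDerivAt (FF ψ) (DF ψ ζ) ζ := by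
  have h2 : HasFDerivAt ψ ((ContinuousLinearMap.toSpanSingleton ℂ
      (deriv ψ (HH ζ))).restrictScalars ℝ) (HH ζ) :=
    (P.d.differentiableAt (Ot_open.mem_nhds (HH_mem h0 h1))).hasDerivAt.hasFDerivAt.restrictScalars ℝ
  exact HasFDerivAt.comp (g := ψ) (f := HH) ζ h2 (HH_fderiv ζ)

lemma DH_one (ζ : ℂ) : DH ζ 1 = Complex.exp (vv ζ * I) * Real.sinh (uu ζ) := by
  rw [DH_apply]; simp

lemma DH_I (ζ : ℂ) : DH ζ I = Complex.exp (vv ζ * I) * (Real.cosh (uu ζ) * I) := by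
  rw [DH_apply]; simp

lemma DF_det (ψ : ℂ → ℂ) (ζ : ℂ) : (DF ψ ζ).det =
    ‖deriv ψ (HH ζ)‖ ^ 2 * (Real.sinh (uu ζ) * Real.cosh (uu ζ)) := by
  rw [det_formula, DF_apply, DF_apply, DH_one, DH_I]
  have h1 : ‖deriv ψ (HH ζ)‖ = ‖Complex.exp (vv ζ * I) * deriv ψ (HH ζ)‖ := by
    rw [norm_mul, Complex.norm_exp_ofReal_mul_I, one_mul]
  rw [h1, ← Complex.normSq_eq_norm_sq, Complex.normSq_apply]
  set κ := Complex.exp (vv ζ * I) * deriv ψ (HH ζ) with hκ
  have e1 : Complex.exp (vv ζ * I) * (Real.sinh (uu ζ) : ℂ) * deriv ψ (HH ζ) =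
      (Real.sinh (uu ζ) : ℂ) * κ := by rw [hκ]; ring
  have e2 : Complex.exp (vv ζ * I) * ((Real.cosh (uu ζ) : ℂ) * I) * deriv ψ (HH ζ) =
      (Real.cosh (uu ζ) : ℂ) * (I * κ) := by rw [hκ]; ring
  rw [e1, e2, Complex.re_ofReal_mul, Complex.im_ofReal_mul, Complex.re_ofReal_mul,
    Complex.im_ofReal_mul, Complex.I_mul_re, Complex.I_mul_im]
  ring

lemma FF_ne (P : PsiD ψ rs) {ζ : ℂ} (h0 : 0 < ζ.re) (h1 : ζ.re < 1 / 16) : FF ψ ζ ≠ 0 :=
  P.ne (HH_mem h0 h1)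

/-- derivative of the logarithm of the modulus along horizontal lines -/
lemma pp_deriv (P : PsiD ψ rs) {s θ : ℝ} (h0 : 0 < s) (h1 : s < 1 / 16) :
    ∃ d : ℝ, HasDerivAt (fun s : ℝ => Real.log ‖FF ψ (s + θ * I)‖) d s ∧
      |d| ≤ GG ψ (s + θ * I) * Real.sinh (uu (s + θ * I)) := by
  set ζ : ℂ := s + θ * I with hζ
  have hre : ζ.re = s := by simp [hζ]
  have g0 : 0 < ζ.re := by rw [hre]; exact h0
  have g1 : ζ.re < 1 / 16 := by rw [hre]; exact h1
  have hne := FF_ne P g0 g1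
  have e1 : HasDerivAt (fun s : ℝ => (s : ℂ) + θ * I) 1 s := by
    have := (Complex.ofRealCLM.hasDerivAt (x := s)).add_const (θ * I : ℂ)
    simpa using this
  have e2 : HasDerivAt (fun s : ℝ => FF ψ (s + θ * I)) (DF ψ ζ 1) s :=
    HasFDerivAt.comp_hasDerivAt (l := FF ψ) (f := fun s : ℝ => (s : ℂ) + θ * I) s
      (FF_fderiv P g0 g1) e1
  have e3 : HasDerivAt (fun t : ℝ => Complex.log (FF ψ (t + θ * I) / FF ψ ζ))
      (DF ψ ζ 1 / FF ψ ζ) s := by
    have h2 : FF ψ (s + θ * I) / FF ψ ζ ∈ Complex.slitPlane := by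
      rw [← hζ, div_self hne]; exact Complex.one_mem_slitPlane
    have := (e2.div_const (FF ψ ζ)).clog_real h2
    rw [← hζ, div_self hne, div_one] at this
    exact this
  have e4 : HasDerivAt (fun t : ℝ => (Complex.log (FF ψ (t + θ * I) / FF ψ ζ)).re)
      (DF ψ ζ 1 / FF ψ ζ).re s := by
    exact Complex.reCLM.hasFDerivAt.comp_hasDerivAt s e3
  refine ⟨(DF ψ ζ 1 / FF ψ ζ).re, ?_, ?_⟩
  · have e5 := e4.const_add (Real.log ‖FF ψ ζ‖)
    refine e5.congr_of_eventuallyEq ?_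
    have h3 : ∀ᶠ t : ℝ in 𝓝 s, t ∈ Ioo (0 : ℝ) (1 / 16) := isOpen_Ioo.mem_nhds ⟨h0, h1⟩
    filter_upwards [h3] with t ht
    have hre' : ((t : ℂ) + θ * I).re = t := by simp
    have h4 : FF ψ (t + θ * I) ≠ 0 := FF_ne P (by rw [hre']; exact ht.1) (by rw [hre']; exact ht.2)
    rw [Complex.log_re, norm_div, Real.log_div (norm_ne_zero_iff.2 h4) (norm_ne_zero_iff.2 hne)]
    ring
  · refine (Complex.abs_re_le_norm _).trans ?_
    rw [norm_div, DF_apply, DH_one, norm_mul, norm_mul, Complex.norm_exp_ofReal_mul_I, one_mul,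
      Complex.norm_real, Real.norm_of_nonneg (Real.sinh_nonneg_iff.2 (uu_pos g0 g1).le)]
    unfold GG
    apply le_of_eq; ring

lemma amgm {w G S T u : ℝ} (hS : 0 < S) (hT : 0 < T) (hSu : S ≤ u * T) :
    w * (G * S) ≤ 1 / 2 * (G ^ 2 * (S * T)) + 1 / 2 * (w ^ 2 * u) := by
  have h1 : S / T ≤ u := by rwa [div_le_iff₀ hT]
  have h2 : 0 ≤ S / T * (G * T - w) ^ 2 := by positivity
  have h3 : S / T * (G * T - w) ^ 2 = G ^ 2 * (S * T) - 2 * (w * (G * S)) + w ^ 2 * (S / T) := by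
    field_simp; ring
  have h4 : w ^ 2 * (S / T) ≤ w ^ 2 * u := mul_le_mul_of_nonneg_left h1 (sq_nonneg w)
  linarith

/-- the region between two levels -/
def AA (ψ : ℂ → ℂ) (a b : ℝ) : Set ℂ := RR ∩ (fun ζ => Real.log ‖FF ψ ζ‖) ⁻¹' (Ioo a b)

lemma FF_cont (P : PsiD ψ rs) : ContinuousOn (FF ψ) RR := fun _ hζ =>
  (FF_fderiv P hζ.1.1 hζ.1.2).continuousAt.continuousWithinAt

lemma AA_open (P : PsiD ψ rs) (a b : ℝ) : IsOpen (AA ψ a b) := by
  apply ContinuousOn.isOpen_inter_preimage _ RR_open isOpen_Ioo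
  exact (FF_cont P).norm.log (fun ζ hζ => norm_ne_zero_iff.2 (FF_ne P hζ.1.1 hζ.1.2))

lemma FF_inj (P : PsiD ψ rs) : InjOn (FF ψ) RR := by
  intro z hz w hw h
  have h1 : HH z = HH w := P.inj (HH_mem hz.1.1 hz.1.2) (HH_mem hw.1.1 hw.1.2) h
  rw [← hm_exp, ← hm_exp] at h1
  have h2 := hm_inj (exp_mem_Om.2 hz.1) (exp_mem_Om.2 hw.1) h1
  exact Complex.exp_inj_of_neg_pi_lt_of_le_pi hz.2.1 hz.2.2.le hw.2.1 hw.2.2.le h2

lemma area (P : PsiD ψ rs) {a b : ℝ} (hab : a ≤ b) :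
    ∫⁻ ζ in AA ψ a b, ENNReal.ofReal (GG ψ ζ ^ 2 * (Real.sinh (uu ζ) * Real.cosh (uu ζ))) ≤
      ENNReal.ofReal (2 * π * (b - a)) := by
  have hmeas := (AA_open P a b).measurableSet
  have h1 := lintegral_image_eq_lintegral_abs_det_fderiv_mul volume hmeas
    (fun ζ (hζ : ζ ∈ AA ψ a b) => (FF_fderiv P hζ.1.1.1 hζ.1.1.2).hasFDerivWithinAt)
    ((FF_inj P).mono inter_subset_left) (fun w => ENNReal.ofReal (1 / ‖w‖ ^ 2))
  have h2 : ∫⁻ ζ in AA ψ a b, ENNReal.ofReal (GG ψ ζ ^ 2 * (Real.sinh (uu ζ) * Real.cosh (uu ζ))) =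
      ∫⁻ ζ in AA ψ a b, ENNReal.ofReal |(DF ψ ζ).det| * ENNReal.ofReal (1 / ‖FF ψ ζ‖ ^ 2) := by
    apply setLIntegral_congr_fun hmeas
    intro ζ hζ
    have h3 : 0 ≤ Real.sinh (uu ζ) := Real.sinh_nonneg_iff.2 (uu_pos hζ.1.1.1 hζ.1.1.2).le
    have h4 : 0 ≤ Real.cosh (uu ζ) := (Real.cosh_pos _).le
    beta_reduce
    rw [← ENNReal.ofReal_mul (abs_nonneg _), DF_det, abs_of_nonneg (by positivity)]
    congr 1
    unfold GG
    rw [div_pow]; ring
  rw [h2, ← h1]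
  have h5 : FF ψ '' AA ψ a b ⊆ ann (Real.exp a) (Real.exp b) := by
    rintro _ ⟨ζ, hζ, rfl⟩
    have h6 : 0 < ‖FF ψ ζ‖ := norm_pos_iff.2 (FF_ne P hζ.1.1.1 hζ.1.1.2)
    have h7 := hζ.2
    rw [mem_preimage, mem_Ioo, Real.lt_log_iff_exp_lt h6, Real.log_lt_iff_lt_exp h6] at h7
    exact h7
  refine (lintegral_mono_set h5).trans ?_
  rw [polar_lint (Real.exp_pos a).le, ← Measure.prod_restrict]
  refine (lintegral_prod_le _).trans ?_
  have h8 : ∀ r ∈ Ioo (Real.exp a) (Real.exp b), ∫⁻ θ in Ioo (-π) π,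
      ENNReal.ofReal r * ENNReal.ofReal (1 / ‖circleMap 0 r θ‖ ^ 2) =
      ENNReal.ofReal (2 * π * r⁻¹) := by
    intro r hr
    have hr0 : 0 < r := (Real.exp_pos a).trans hr.1
    have hn : ∀ t, ‖circleMap 0 r t‖ = r := fun t => by
      rw [norm_circleMap_zero, abs_of_pos hr0]
    simp_rw [hn]
    rw [setLIntegral_const, Real.volume_Ioo, ← ENNReal.ofReal_mul hr0.le,
      ← ENNReal.ofReal_mul (by positivity)]
    congr 1
    field_simp; ring
  simp only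
  rw [setLIntegral_congr_fun measurableSet_Ioo h8]
  have h9 : ∫⁻ r in Ioo (Real.exp a) (Real.exp b), ENNReal.ofReal (2 * π * r⁻¹) =
      ENNReal.ofReal (∫ r in (Real.exp a)..(Real.exp b), 2 * π * r⁻¹) := by
    rw [intervalIntegral.integral_of_le (Real.exp_le_exp.2 hab), integral_Ioc_eq_integral_Ioo,
      ofReal_integral_eq_lintegral_ofReal]
    · have hc : ContinuousOn (fun r : ℝ => 2 * π * r⁻¹) (Icc (Real.exp a) (Real.exp b)) := by
        apply continuousOn_const.mul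
        apply continuousOn_id.inv₀
        intro r hr
        exact ((Real.exp_pos a).trans_le hr.1).ne'
      exact (hc.integrableOn_Icc).mono_set Ioo_subset_Icc_self
    · rw [EventuallyLE, ae_restrict_iff' measurableSet_Ioo]
      refine Eventually.of_forall fun r hr => ?_
      have : 0 < r := (Real.exp_pos a).trans hr.1
      simp only [Pi.zero_apply]
      positivity
  rw [h9, intervalIntegral.integral_const_mul, integral_inv_of_pos (Real.exp_pos a) (Real.exp_pos b),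
    Real.log_div (Real.exp_pos b).ne' (Real.exp_pos a).ne', Real.log_exp, Real.log_exp]

/-- the weight -/
noncomputable def ww (θ : ℝ) : ℝ := 1 - 1 / 16 * Real.cos (2 * θ)

lemma ww_pos (θ : ℝ) : 0 < ww θ := by
  unfold ww
  have := Real.cos_le_one (2 * θ)
  linarith

lemma ww_cont : Continuous ww := by unfold ww; fun_prop

lemma ww_int : ∫ θ in (-π)..π, ww θ = 2 * π := by
  have h1 : ∀ θ ∈ uIcc (-π) π, HasDerivAt (fun θ : ℝ => θ - 1 / 32 * Real.sin (2 * θ)) (ww θ) θ := by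
    intro θ _
    have e1 : HasDerivAt (fun θ : ℝ => 2 * θ) 2 θ := by
      simpa using (hasDerivAt_id θ).const_mul 2
    have e2 := ((hasDerivAt_id θ).sub ((e1.sin).const_mul (1 / 32)))
    refine e2.congr_deriv ?_
    unfold ww; ring
  rw [intervalIntegral.integral_eq_sub_of_hasDerivAt h1 (ww_cont.intervalIntegrable _ _)]
  have h2 : Real.sin (2 * π) = 0 := Real.sin_two_pi
  have h3 : Real.sin (2 * -π) = 0 := by
    rw [mul_neg, Real.sin_neg, h2, neg_zero]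
  rw [h2, h3]; ring

lemma uu_cont : Continuous uu := by
  unfold uu
  exact Complex.continuous_re.comp PP_diff.continuous

lemma w2u_int {s : ℝ} : ∫ θ in (-π)..π, ww θ ^ 2 * uu (s + θ * I) =
    2 * π * (s * (1 + 1 / 512) - 1 / 16 * (1 / 32 * Real.sinh (2 * s))) := by
  set K : ℝ := 1 / 32 * Real.sinh (2 * s) with hK
  have hu : ∀ θ : ℝ, uu (s + θ * I) = s + K * Real.cos (2 * θ) := by
    intro θ
    rw [uu_eq]
    simp
    rw [hK]; ring
  have h1 : ∀ θ ∈ uIcc (-π) π, HasDerivAt (fun θ : ℝ => s * θ + (K - s / 8) * (Real.sin (2 * θ) / 2) +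
      (s / 256 - K / 8) * (θ / 2 + Real.sin (2 * θ) * Real.cos (2 * θ) / 4) +
      K / 256 * (Real.sin (2 * θ) / 2 - Real.sin (2 * θ) ^ 3 / 6))
      (ww θ ^ 2 * uu (s + θ * I)) θ := by
    intro θ _
    have e0 : HasDerivAt (fun θ : ℝ => 2 * θ) 2 θ := by
      simpa using (hasDerivAt_id θ).const_mul 2
    have es : HasDerivAt (fun θ : ℝ => Real.sin (2 * θ)) (Real.cos (2 * θ) * 2) θ := e0.sin
    have ec : HasDerivAt (fun θ : ℝ => Real.cos (2 * θ)) (-Real.sin (2 * θ) * 2) θ := e0.cos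
    have e1 := (hasDerivAt_id θ).const_mul s
    have e2 := (es.div_const 2).const_mul (K - s / 8)
    have e3 := (((hasDerivAt_id θ).div_const 2).add ((es.mul ec).div_const 4)).const_mul
      (s / 256 - K / 8)
    have e4 := ((es.div_const 2).sub ((es.pow 3).div_const 6)).const_mul (K / 256)
    have e5 := ((e1.add e2).add e3).add e4
    refine e5.congr_deriv ?_
    rw [hu]
    unfold ww
    have hsc := Real.sin_sq_add_cos_sq (2 * θ)
    have hs2 : Real.sin (2 * θ) ^ 2 = 1 - Real.cos (2 * θ) ^ 2 := by linarith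
    push_cast
    ring_nf
    ring_nf at hs2
    rw [hs2]
    ring
  rw [intervalIntegral.integral_eq_sub_of_hasDerivAt h1]
  · have h2 : Real.sin (2 * π) = 0 := Real.sin_two_pi
    have h3 : Real.sin (2 * -π) = 0 := by
      rw [mul_neg, Real.sin_neg, h2, neg_zero]
    rw [h2, h3]; ring
  · apply Continuous.intervalIntegrable
    apply (ww_cont.pow 2).mul
    apply uu_cont.comp
    fun_prop

lemma w2u_le {s : ℝ} (hs : 0 ≤ s) : ∫ θ in (-π)..π, ww θ ^ 2 * uu (s + θ * I) ≤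
    2 * π * (1 - 1 / 512) * s := by
  rw [w2u_int]
  have h1 : 2 * s ≤ Real.sinh (2 * s) := Real.self_le_sinh_iff.2 (by linarith)
  have := Real.pi_pos
  nlinarith

end Pool.Agent.H366R3.MB
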