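import Mathlib
import Pool.Agent.H366R3.MB.Mod

set_option autoImplicit false

open Set Filter Topology Metric MeasureTheory
open scoped ComplexConjugate Real ENNReal

namespace Pool.Agent.H366R3.MB

open Pool.Agent.H366R3 Pool.Agent.H366R3.ED
open Complex (I)

variable {ψ : ℂ → ℂ} {rs : ℝ}

lemma mk_eq (s θ : ℝ) : Complex.measurableEquivRealProd.symm (s, θ) = (s : ℂ) + θ * I := by
  rw [Complex.measurableEquivRealProd_symm_apply]
  exact Complex.mk_eq_add_mul_I s θ

/-- every horizontal segment crosses all levels -/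
lemma cross (P : PsiD ψ rs) {A B : ℝ} (hA : rs < A) (hAB : A ≤ B) (hB : B < 1) (θ : ℝ) :
    Icc (Real.log A) (Real.log B) ⊆
      (fun s : ℝ => Real.log ‖FF ψ (s + θ * I)‖) '' Ioo (0 : ℝ) (1 / 16) := by
  have hA0 : 0 < A := P.h0.trans_lt hA
  obtain ⟨α, β, h1, h2, h3, h4⟩ := P.ends hA hAB hB
  have hre : ∀ t : ℝ, ((t : ℂ) + θ * I).re = t := fun t => by simp
  have hc : ContinuousOn (fun s : ℝ => Real.log ‖FF ψ (s + θ * I)‖) (Ioo (0 : ℝ) (1 / 16)) := by
    intro s hs
    obtain ⟨d, hd, -⟩ := pp_deriv P (θ := θ) hs.1 hs.2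
    exact hd.continuousAt.continuousWithinAt
  have hFFeq : ∀ t : ℝ, FF ψ (t + θ * I) = ψ (hm (Complex.exp (t + θ * I))) := fun t => by
    rw [hm_exp]; rfl
  have hOm : ∀ t : ℝ, t ∈ Ioo (0 : ℝ) (1 / 16) → Complex.exp (t + θ * I) ∈ Om := fun t ht =>
    exp_mem_Om.2 (by rw [hre]; exact ht)
  have hnorm : ∀ t : ℝ, ‖Complex.exp (t + θ * I)‖ = Real.exp t := fun t => by
    rw [Complex.norm_exp, hre]
  have hα0 : 0 < Real.log α := Real.log_pos h1
  have hβ0 : 0 < β := by linarith
  have hβ1 : Real.log β < 1 / 16 := by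
    rw [Real.log_lt_iff_lt_exp hβ0]; exact h3
  have hαβ : Real.log α ≤ Real.log β := Real.log_le_log (by linarith) h2
  set s1 : ℝ := Real.log α / 2 with hs1
  set s2 : ℝ := (Real.log β + 1 / 16) / 2 with hs2
  have hs1m : s1 ∈ Ioo (0 : ℝ) (1 / 16) := ⟨by linarith, by linarith⟩
  have hs2m : s2 ∈ Ioo (0 : ℝ) (1 / 16) := ⟨by linarith, by linarith⟩
  have hn1 : ‖Complex.exp (s1 + θ * I)‖ < α := by
    rw [hnorm, ← Real.exp_log (show 0 < α by linarith), Real.exp_lt_exp]; linarith
  have hn2 : β < ‖Complex.exp (s2 + θ * I)‖ := by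
    rw [hnorm]
    nth_rewrite 1 [← Real.exp_log hβ0]
    rw [Real.exp_lt_exp]; linarith
  have hpc : IsPreconnected (Ioo (0 : ℝ) (1 / 16)) := isPreconnected_Ioo
  have hpos : ∀ t ∈ Ioo (0 : ℝ) (1 / 16), 0 < ‖FF ψ (t + θ * I)‖ := fun t ht =>
    norm_pos_iff.2 (FF_ne P (by rw [hre]; exact ht.1) (by rw [hre]; exact ht.2))
  rcases h4 with ⟨h5, h6⟩ | ⟨h5, h6⟩
  · have e1 := h5 _ (hOm s1 hs1m) hn1
    have e2 := h6 _ (hOm s2 hs2m) hn2
    rw [← hFFeq] at e1 e2
    have e3 := Real.log_lt_log (hpos s1 hs1m) e1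
    have e4 := Real.log_lt_log (hA0.trans_le hAB) e2
    refine Subset.trans ?_ (hpc.intermediate_value hs1m hs2m hc)
    exact Icc_subset_Icc e3.le e4.le
  · have e1 := h5 _ (hOm s1 hs1m) hn1
    have e2 := h6 _ (hOm s2 hs2m) hn2
    rw [← hFFeq] at e1 e2
    have e3 := Real.log_lt_log (hA0.trans_le hAB) e1
    have e4 := Real.log_lt_log (hpos s2 hs2m) e2
    refine Subset.trans ?_ (hpc.intermediate_value hs2m hs1m hc)
    exact Icc_subset_Icc e4.le e3.le

/-- the integrand -/
noncomputable def g0 (ψ : ℂ → ℂ) (a b : ℝ) : ℂ → ℝ≥0∞ :=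
  (AA ψ a b).indicator (fun ζ => ENNReal.ofReal (ww ζ.im * (GG ψ ζ * Real.sinh (uu ζ))))

lemma fiber (P : PsiD ψ rs) {A B : ℝ} (hA : rs < A) (hAB : A ≤ B) (hB : B < 1) {θ : ℝ}
    (hθ : θ ∈ Ioo (-π) π) :
    ENNReal.ofReal (ww θ) * ENNReal.ofReal (Real.log B - Real.log A) ≤
      ∫⁻ s : ℝ, g0 ψ (Real.log A) (Real.log B) (s + θ * I) := by
  set a := Real.log A with ha
  set b := Real.log B with hb
  set p : ℝ → ℝ := fun s : ℝ => Real.log ‖FF ψ (s + θ * I)‖ with hp
  set S : Set ℝ := {s : ℝ | (s : ℂ) + θ * I ∈ AA ψ a b} with hS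
  have hSo : IsOpen S := (AA_open P a b).preimage (by fun_prop)
  have hre : ∀ t : ℝ, ((t : ℂ) + θ * I).re = t := fun t => by simp
  have him : ∀ t : ℝ, ((t : ℂ) + θ * I).im = θ := fun t => by simp
  have hSsub : ∀ s ∈ S, 0 < s ∧ s < 1 / 16 := by
    intro s hs
    have := hs.1.1
    rw [hre] at this
    exact this
  have hd : ∀ s ∈ S, ∃ d : ℝ, HasDerivAt p d s ∧
      |d| ≤ GG ψ (s + θ * I) * Real.sinh (uu (s + θ * I)) := fun s hs =>
    pp_deriv P (hSsub s hs).1 (hSsub s hs).2
  have hd' : ∀ s ∈ S, HasDerivAt p (deriv p s) s ∧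
      |deriv p s| ≤ GG ψ (s + θ * I) * Real.sinh (uu (s + θ * I)) := by
    intro s hs
    obtain ⟨d, h1, h2⟩ := hd s hs
    rw [h1.deriv]; exact ⟨h1, h2⟩
  have hsub : Ioo a b ⊆ p '' S := by
    intro y hy
    obtain ⟨s, hs, hsy⟩ := cross P hA hAB hB θ (Ioo_subset_Icc_self hy)
    refine ⟨s, ⟨⟨?_, ?_⟩, ?_⟩, hsy⟩
    · rw [hre]; exact hs
    · rw [him]; exact hθ
    · rw [mem_preimage]
      have : Real.log ‖FF ψ (s + θ * I)‖ = y := hsy
      rw [this]; exact hy
  have h1 : ENNReal.ofReal (b - a) ≤ ∫⁻ s in S, ENNReal.ofReal |deriv p s| := by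
    have h2 := addHaar_image_le_lintegral_abs_det_fderiv volume hSo.measurableSet
      (f := p) (f' := fun s => ContinuousLinearMap.toSpanSingleton ℝ (deriv p s))
      (fun s hs => (hd' s hs).1.hasFDerivAt.hasFDerivWithinAt)
    have h3 := measure_mono (μ := volume) hsub
    rw [Real.volume_Ioo] at h3
    refine h3.trans (h2.trans (le_of_eq ?_))
    simp only [ContinuousLinearMap.det_toSpanSingleton]
  calc ENNReal.ofReal (ww θ) * ENNReal.ofReal (b - a)
      ≤ ENNReal.ofReal (ww θ) * ∫⁻ s in S, ENNReal.ofReal |deriv p s| := by gcongr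
    _ = ∫⁻ s in S, ENNReal.ofReal (ww θ) * ENNReal.ofReal |deriv p s| := by
        rw [lintegral_const_mul' _ _ ENNReal.ofReal_ne_top]
    _ ≤ ∫⁻ s in S, g0 ψ a b (s + θ * I) := by
        apply setLIntegral_mono' hSo.measurableSet
        intro s hs
        rw [g0, indicator_of_mem (show (s : ℂ) + θ * I ∈ AA ψ a b from hs), him,
          ← ENNReal.ofReal_mul (ww_pos θ).le]
        apply ENNReal.ofReal_le_ofReal
        exact mul_le_mul_of_nonneg_left (hd' s hs).2 (ww_pos θ).le
    _ ≤ ∫⁻ s : ℝ, g0 ψ a b (s + θ * I) := setLIntegral_le_lintegral _ _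

lemma deriv_cont (P : PsiD ψ rs) : ContinuousOn (deriv ψ) Ot :=
  (P.d.deriv Ot_open).continuousOn

lemma GG_cont (P : PsiD ψ rs) : ContinuousOn (GG ψ) RR := by
  unfold GG
  apply ContinuousOn.div
  · apply ContinuousOn.norm
    apply (deriv_cont P).comp (HH_contDiff.continuous.continuousOn)
    exact fun ζ hζ => HH_mem hζ.1.1 hζ.1.2
  · exact (FF_cont P).norm
  · intro ζ hζ
    exact norm_ne_zero_iff.2 (FF_ne P hζ.1.1 hζ.1.2)

lemma g0_meas (P : PsiD ψ rs) (a b : ℝ) : AEMeasurable (g0 ψ a b) := by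
  unfold g0
  rw [aemeasurable_indicator_iff (AA_open P a b).measurableSet]
  apply ContinuousOn.aemeasurable _ (AA_open P a b).measurableSet
  apply ENNReal.continuous_ofReal.comp_continuousOn
  apply ContinuousOn.mul
  · exact (ww_cont.comp Complex.continuous_im).continuousOn
  · apply ContinuousOn.mul
    · exact (GG_cont P).mono inter_subset_left
    · exact (Real.continuous_sinh.comp uu_cont).continuousOn

/-- Tonelli -/
lemma tonelli {g : ℂ → ℝ≥0∞} (hg : AEMeasurable g) :
    ∫⁻ ζ : ℂ, g ζ = ∫⁻ θ : ℝ, ∫⁻ s : ℝ, g (s + θ * I) := by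
  have hmp := Complex.volume_preserving_equiv_real_prod.symm
  rw [← hmp.lintegral_comp_emb Complex.measurableEquivRealProd.symm.measurableEmbedding]
  have hm' : AEMeasurable (fun p : ℝ × ℝ => g (Complex.measurableEquivRealProd.symm p))
      (volume.prod volume) := hg.comp_quasiMeasurePreserving hmp.quasiMeasurePreserving
  rw [Measure.volume_eq_prod, lintegral_prod_symm _ hm']
  simp_rw [mk_eq]

lemma lower (P : PsiD ψ rs) {A B : ℝ} (hA : rs < A) (hAB : A ≤ B) (hB : B < 1) :
    ENNReal.ofReal (2 * π * (Real.log B - Real.log A)) ≤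
      ∫⁻ ζ : ℂ, g0 ψ (Real.log A) (Real.log B) ζ := by
  rw [tonelli (g0_meas P _ _)]
  have h1 : ∫⁻ θ in Ioo (-π) π, ENNReal.ofReal (ww θ) = ENNReal.ofReal (2 * π) := by
    rw [← ww_int, intervalIntegral.integral_of_le (by linarith [Real.pi_pos]),
      integral_Ioc_eq_integral_Ioo, ofReal_integral_eq_lintegral_ofReal]
    · exact (ww_cont.integrableOn_Icc (a := -π) (b := π)).mono_set Ioo_subset_Icc_self
    · exact Eventually.of_forall fun t => (ww_pos t).le
  calc ENNReal.ofReal (2 * π * (Real.log B - Real.log A))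
      = ∫⁻ θ in Ioo (-π) π, ENNReal.ofReal (ww θ) * ENNReal.ofReal (Real.log B - Real.log A) := by
        rw [lintegral_mul_const' _ _ ENNReal.ofReal_ne_top, h1,
          ENNReal.ofReal_mul (by linarith [Real.pi_pos])]
    _ ≤ ∫⁻ θ in Ioo (-π) π, ∫⁻ s : ℝ, g0 ψ (Real.log A) (Real.log B) (s + θ * I) :=
        setLIntegral_mono' measurableSet_Ioo fun θ hθ => fiber P hA hAB hB hθ
    _ ≤ _ := setLIntegral_le_lintegral _ _

lemma w2u_total : ∫⁻ ζ in RR, ENNReal.ofReal (ww ζ.im ^ 2 * uu ζ) ≤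
    ENNReal.ofReal (2 * π * ((1 - 1 / 512) * (1 / 512))) := by
  have hπ := Real.pi_pos
  rw [← lintegral_indicator RR_open.measurableSet]
  have hmeas : AEMeasurable (RR.indicator fun ζ : ℂ => ENNReal.ofReal (ww ζ.im ^ 2 * uu ζ)) := by
    rw [aemeasurable_indicator_iff RR_open.measurableSet]
    apply Continuous.aemeasurable
    apply ENNReal.continuous_ofReal.comp
    exact ((ww_cont.comp Complex.continuous_im).pow 2).mul uu_cont
  -- swap the order
  have hmp := Complex.volume_preserving_equiv_real_prod.symm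
  rw [← hmp.lintegral_comp_emb Complex.measurableEquivRealProd.symm.measurableEmbedding,
    Measure.volume_eq_prod]
  refine (lintegral_prod_le _).trans ?_
  simp_rw [mk_eq]
  have hin : ∀ s : ℝ, ∫⁻ θ : ℝ, RR.indicator (fun ζ : ℂ => ENNReal.ofReal (ww ζ.im ^ 2 * uu ζ))
      (s + θ * I) ≤ (Ioo (0 : ℝ) (1 / 16)).indicator
        (fun s => ENNReal.ofReal (2 * π * (1 - 1 / 512) * s)) s := by
    intro s
    have hre : ∀ θ : ℝ, ((s : ℂ) + θ * I).re = s := fun t => by simp
    have him : ∀ θ : ℝ, ((s : ℂ) + θ * I).im = θ := fun t => by simp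
    by_cases hs : s ∈ Ioo (0 : ℝ) (1 / 16)
    · rw [indicator_of_mem hs]
      have h1 : ∀ θ : ℝ, RR.indicator (fun ζ : ℂ => ENNReal.ofReal (ww ζ.im ^ 2 * uu ζ))
          (s + θ * I) = (Ioo (-π) π).indicator
            (fun θ : ℝ => ENNReal.ofReal (ww θ ^ 2 * uu (s + θ * I))) θ := by
        intro θ
        by_cases hθ : θ ∈ Ioo (-π) π
        · rw [indicator_of_mem hθ, indicator_of_mem, him]
          exact ⟨by rw [hre]; exact hs, by rw [him]; exact hθ⟩
        · rw [indicator_of_notMem hθ, indicator_of_notMem]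
          intro h; apply hθ
          have := h.2
          rw [him] at this; exact this
      simp_rw [h1]
      rw [lintegral_indicator measurableSet_Ioo]
      have hc : Continuous fun θ : ℝ => ww θ ^ 2 * uu (s + θ * I) := by
        apply (ww_cont.pow 2).mul
        apply uu_cont.comp
        fun_prop
      rw [← ofReal_integral_eq_lintegral_ofReal, ← integral_Ioc_eq_integral_Ioo,
        ← intervalIntegral.integral_of_le (by linarith)]
      · exact ENNReal.ofReal_le_ofReal (w2u_le hs.1.le)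
      · exact (hc.integrableOn_Icc (a := -π) (b := π)).mono_set Ioo_subset_Icc_self
      · refine Eventually.of_forall fun θ => ?_
        have : 0 < uu (s + θ * I) := uu_pos (by rw [hre]; exact hs.1) (by rw [hre]; exact hs.2)
        simp only [Pi.zero_apply]
        positivity
    · rw [indicator_of_notMem hs]
      apply le_of_eq
      have : ∀ θ : ℝ, RR.indicator (fun ζ : ℂ => ENNReal.ofReal (ww ζ.im ^ 2 * uu ζ))
          (s + θ * I) = 0 := by
        intro θ
        rw [indicator_of_notMem]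
        intro h; apply hs
        have := h.1
        rw [hre] at this; exact this
      simp_rw [this]
      simp
  refine (lintegral_mono hin).trans ?_
  rw [lintegral_indicator measurableSet_Ioo]
  have hc : Continuous fun s : ℝ => 2 * π * (1 - 1 / 512) * s := by fun_prop
  rw [← ofReal_integral_eq_lintegral_ofReal, ← integral_Ioc_eq_integral_Ioo,
    ← intervalIntegral.integral_of_le (by norm_num), intervalIntegral.integral_const_mul,
    integral_id]
  · apply ENNReal.ofReal_le_ofReal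
    apply le_of_eq; norm_num; ring
  · exact (hc.integrableOn_Icc (a := 0) (b := 1 / 16)).mono_set Ioo_subset_Icc_self
  · rw [EventuallyLE, ae_restrict_iff' measurableSet_Ioo]
    refine Eventually.of_forall fun s hs => ?_
    have : 0 < s := hs.1
    simp only [Pi.zero_apply]
    have h1 : (0 : ℝ) < 1 - 1 / 512 := by norm_num
    positivity

/-- the modulus bound on sub-annuli -/
lemma bound (P : PsiD ψ rs) {A B : ℝ} (hA : rs < A) (hAB : A ≤ B) (hB : B < 1) :
    Real.log B - Real.log A ≤ (1 - 1 / 512) * (1 / 512) := by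
  have hA0 : 0 < A := P.h0.trans_lt hA
  have hπ := Real.pi_pos
  set a := Real.log A with ha
  set b := Real.log B with hb
  have hab : a ≤ b := Real.log_le_log hA0 hAB
  have h1 := lower P hA hAB hB
  have h2 := area P hab
  have h3 := w2u_total
  have hAm := (AA_open P a b).measurableSet
  have h4 : ∫⁻ ζ : ℂ, g0 ψ a b ζ ≤ ENNReal.ofReal (1 / 2) * ENNReal.ofReal (2 * π * (b - a)) +
      ENNReal.ofReal (1 / 2) * ENNReal.ofReal (2 * π * ((1 - 1 / 512) * (1 / 512))) := by
    unfold g0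
    rw [lintegral_indicator hAm]
    calc ∫⁻ ζ in AA ψ a b, ENNReal.ofReal (ww ζ.im * (GG ψ ζ * Real.sinh (uu ζ)))
        ≤ ∫⁻ ζ in AA ψ a b, (ENNReal.ofReal (1 / 2) *
            ENNReal.ofReal (GG ψ ζ ^ 2 * (Real.sinh (uu ζ) * Real.cosh (uu ζ))) +
            ENNReal.ofReal (1 / 2) * ENNReal.ofReal (ww ζ.im ^ 2 * uu ζ)) := by
          apply setLIntegral_mono' hAm
          intro ζ hζ
          have hu := uu_pos hζ.1.1.1 hζ.1.1.2
          have hS : 0 < Real.sinh (uu ζ) := Real.sinh_pos_iff.2 hu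
          have hT : 0 < Real.cosh (uu ζ) := Real.cosh_pos _
          rw [← ENNReal.ofReal_mul (by norm_num), ← ENNReal.ofReal_mul (by norm_num),
            ← ENNReal.ofReal_add (by positivity) (by positivity)]
          apply ENNReal.ofReal_le_ofReal
          exact amgm hS hT (sinh_le_mul_cosh hu.le)
      _ = (∫⁻ ζ in AA ψ a b, ENNReal.ofReal (1 / 2) *
            ENNReal.ofReal (GG ψ ζ ^ 2 * (Real.sinh (uu ζ) * Real.cosh (uu ζ)))) +
          ∫⁻ ζ in AA ψ a b, ENNReal.ofReal (1 / 2) * ENNReal.ofReal (ww ζ.im ^ 2 * uu ζ) := by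
          rw [lintegral_add_right]
          apply Measurable.const_mul
          apply Continuous.measurable
          exact ENNReal.continuous_ofReal.comp
            (((ww_cont.comp Complex.continuous_im).pow 2).mul uu_cont)
      _ ≤ _ := by
          rw [lintegral_const_mul' _ _ ENNReal.ofReal_ne_top,
            lintegral_const_mul' _ _ ENNReal.ofReal_ne_top]
          gcongr
          exact (lintegral_mono_set inter_subset_left).trans h3
  have h5 := h1.trans h4
  rw [← ENNReal.ofReal_mul (by norm_num), ← ENNReal.ofReal_mul (by norm_num),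
    ← ENNReal.ofReal_add (by have := sub_nonneg.2 hab; positivity) (by norm_num; positivity)] at h5
  rw [ENNReal.ofReal_le_ofReal_iff (by
    have := sub_nonneg.2 hab
    have h7 : (0 : ℝ) ≤ 2 * π * ((1 - 1 / 512) * (1 / 512)) := by norm_num; positivity
    positivity)] at h5
  nlinarith

end Pool.Agent.H366R3.MB
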