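import Mathlib
import Pool.Agent.H366R3.MB.Aut

set_option autoImplicit false

open Set Filter Topology Metric
open scoped ComplexConjugate Real

namespace Pool.Agent.H366R3.MB

open Pool.Agent.H366R3
open Pool.Agent.Helper859.Stk.Riemann
open Complex (I)

/-- linearisation of a fixed point free automorphism of the disk -/
lemma exists_Lam {T S : ℂ → ℂ} (hT : DifferentiableOn ℂ T (ball 0 1))
    (hS : DifferentiableOn ℂ S (ball 0 1)) (mT : MapsTo T (ball 0 1) (ball 0 1))
    (mS : MapsTo S (ball 0 1) (ball 0 1)) (ST : ∀ z ∈ ball (0 : ℂ) 1, S (T z) = z)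
    (TS : ∀ z ∈ ball (0 : ℂ) 1, T (S z) = z) (hfix : ∀ z ∈ ball (0 : ℂ) 1, T z ≠ z) :
    ∃ (Λ : ℂ → ℂ) (σ : ℤ) (rs : ℝ), DifferentiableOn ℂ Λ (ball 0 1) ∧ InjOn Λ (ball 0 1) ∧
      (σ = 1 ∨ σ = -1) ∧ (∀ z ∈ ball (0 : ℂ) 1, Λ (T z) = Λ z + σ * (2 * π * I)) ∧ 0 ≤ rs ∧ rs < 1 ∧
      (fun z => Complex.exp (Λ z)) '' (ball 0 1) = {w : ℂ | rs < ‖w‖ ∧ ‖w‖ < 1} := by
  obtain ⟨a, c, ha, hc, hTf⟩ := aut_form hT hS mT mS ST TS
  obtain ⟨z1, h1, hroot⟩ := fixed_pt ha hc (fun z hz => by rw [← hTf z hz]; exact hfix z hz)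
  obtain ⟨μ, β, hμ, haff⟩ := mm_affine ha hc h1 hroot
  have haff' : ∀ z ∈ ball (0 : ℂ) 1, mm z1 (T z) = μ * mm z1 z + β := fun z hz => by
    rw [hTf z hz]; exact haff z (mem_ball_zero_iff.1 hz)
  have h0 : (0 : ℂ) ∈ ball (0 : ℂ) 1 := mem_ball_self one_pos
  have hπ := Real.pi_pos
  by_cases hμ1 : μ = 1
  · -- parabolic case
    have hβ : β ≠ 0 := by
      rintro rfl
      have := haff' 0 h0
      rw [hμ1] at this
      apply hfix 0 h0
      apply mm_inj h1 (mem_ball_zero_iff.1 (mT h0)) (mem_ball_zero_iff.1 h0)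
      rw [this]; simp
    have hβ' : 0 < |β| := abs_pos.2 hβ
    have hβc : ((|β| : ℝ) : ℂ) ≠ 0 := by exact_mod_cast hβ'.ne'
    have hcne : (2 * π * I / (|β| : ℝ) : ℂ) ≠ 0 := by
      apply div_ne_zero _ hβc
      have : (π : ℂ) ≠ 0 := by exact_mod_cast hπ.ne'
      simp [this]
    obtain ⟨σ, hσ, hσβ⟩ : ∃ σ : ℤ, (σ = 1 ∨ σ = -1) ∧ β = σ * |β| := by
      rcases lt_or_gt_of_ne hβ with h | h
      · exact ⟨-1, Or.inr rfl, by rw [abs_of_neg h]; push_cast; ring⟩
      · exact ⟨1, Or.inl rfl, by rw [abs_of_pos h]; push_cast; ring⟩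
    refine ⟨fun z => (2 * π * I / (|β| : ℝ)) * mm z1 z, σ, 0, ?_, ?_, hσ, ?_, le_rfl, one_pos, ?_⟩
    · exact (mm_diff h1).const_mul _
    · intro z hz w hw h
      exact mm_inj h1 (mem_ball_zero_iff.1 hz) (mem_ball_zero_iff.1 hw) (mul_left_cancel₀ hcne h)
    · intro z hz
      simp only
      rw [haff' z hz, hμ1]
      have e : ((β : ℝ) : ℂ) = σ * (|β| : ℝ) := by exact_mod_cast hσβ
      rw [e]
      field_simp
      push_cast
      ring
    · have hre : ∀ z : ℂ, ((2 * π * I / (|β| : ℝ)) * z).re = -(2 * π / |β|) * z.im := by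
        intro z
        have : (2 * π * I / (|β| : ℝ)) * z = ((2 * π / |β| : ℝ) : ℂ) * (I * z) := by
          push_cast; ring
        rw [this, Complex.re_ofReal_mul, Complex.I_mul_re]; ring
      ext w
      constructor
      · rintro ⟨z, hz, rfl⟩
        simp only
        refine ⟨?_, ?_⟩
        · rw [Complex.norm_exp]; exact Real.exp_pos _
        · rw [Complex.norm_exp, Real.exp_lt_one_iff, hre]
          have := mm_im h1 (mem_ball_zero_iff.1 hz)
          have h3 : 0 < 2 * π / |β| := by positivity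
          nlinarith [mul_pos h3 this]
      · rintro ⟨hw1, hw2⟩
        have hw0 : w ≠ 0 := norm_pos_iff.1 hw1
        have him : 0 < (-I * ((|β| / (2 * π) : ℝ) : ℂ) * Complex.log w).im := by
          have e : -I * ((|β| / (2 * π) : ℝ) : ℂ) * Complex.log w =
            ((|β| / (2 * π) : ℝ) : ℂ) * (-(I * Complex.log w)) := by ring
          rw [e, Complex.im_ofReal_mul, Complex.neg_im, Complex.I_mul_im, Complex.log_re]
          have : Real.log ‖w‖ < 0 := Real.log_neg hw1 hw2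
          have h3 : 0 < |β| / (2 * π) := by positivity
          nlinarith [mul_pos h3 (neg_pos.2 this)]
        obtain ⟨z, hz, hzw⟩ := mm_surj h1 him
        refine ⟨z, mem_ball_zero_iff.2 hz, ?_⟩
        simp only
        rw [hzw]
        have hπc : (π : ℂ) ≠ 0 := by exact_mod_cast hπ.ne'
        have e : (2 * π * I / (|β| : ℝ)) * (-I * ((|β| / (2 * π) : ℝ) : ℂ) * Complex.log w) =
            Complex.log w := by
          push_cast
          field_simp
          linear_combination (-Complex.log w) * Complex.I_sq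
        rw [e, Complex.exp_log hw0]
  · -- hyperbolic case
    have hμ1' : μ - 1 ≠ 0 := sub_ne_zero.2 hμ1
    set b : ℝ := β / (μ - 1) with hb
    set ℓ : ℝ := Real.log μ with hℓ
    have hℓ0 : ℓ ≠ 0 := by
      intro h
      rcases Real.log_eq_zero.1 h with h | h | h
      · linarith
      · exact hμ1 h
      · linarith
    have hℓ' : 0 < |ℓ| := abs_pos.2 hℓ0
    have hℓc : ((|ℓ| : ℝ) : ℂ) ≠ 0 := by exact_mod_cast hℓ'.ne'
    have hcne : (2 * π * I / (|ℓ| : ℝ) : ℂ) ≠ 0 := by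
      apply div_ne_zero _ hℓc
      have : (π : ℂ) ≠ 0 := by exact_mod_cast hπ.ne'
      simp [this]
    obtain ⟨σ, hσ, hσℓ⟩ : ∃ σ : ℤ, (σ = 1 ∨ σ = -1) ∧ ℓ = σ * |ℓ| := by
      rcases lt_or_gt_of_ne hℓ0 with h | h
      · exact ⟨-1, Or.inr rfl, by rw [abs_of_neg h]; push_cast; ring⟩
      · exact ⟨1, Or.inl rfl, by rw [abs_of_pos h]; push_cast; ring⟩
    have him : ∀ z ∈ ball (0 : ℂ) 1, 0 < (mm z1 z + b).im := fun z hz => by
      rw [Complex.add_im, Complex.ofReal_im, add_zero]; exact mm_im h1 (mem_ball_zero_iff.1 hz)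
    have hne : ∀ z ∈ ball (0 : ℂ) 1, mm z1 z + b ≠ 0 := fun z hz h => by
      have := him z hz
      rw [h] at this; simp at this
    have harg : ∀ z ∈ ball (0 : ℂ) 1, 0 < (Complex.arg (mm z1 z + b)) ∧
        Complex.arg (mm z1 z + b) < π := fun z hz => by
      refine ⟨?_, ?_⟩
      · have h2 : 0 ≤ Complex.arg (mm z1 z + b) := Complex.arg_nonneg_iff.2 (him z hz).le
        rcases h2.lt_or_eq with h3 | h3
        · exact h3
        · exfalso
          have := (Complex.arg_eq_zero_iff.1 h3.symm).2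
          have h4 := him z hz
          rw [this] at h4; exact lt_irrefl _ h4
      · rcases (Complex.arg_le_pi (mm z1 z + b)).lt_or_eq with h3 | h3
        · exact h3
        · exfalso
          have := (Complex.arg_eq_pi_iff.1 h3).2
          have h4 := him z hz
          rw [this] at h4; exact lt_irrefl _ h4
    have hsT : ∀ z ∈ ball (0 : ℂ) 1, mm z1 (T z) + b = μ * (mm z1 z + b) := fun z hz => by
      rw [haff' z hz]
      have : (β : ℂ) = (μ - 1) * b := by
        rw [hb]; push_cast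
        have : (μ : ℂ) - 1 ≠ 0 := by exact_mod_cast hμ1'
        field_simp
      rw [this]; ring
    refine ⟨fun z => (2 * π * I / (|ℓ| : ℝ)) * Complex.log (mm z1 z + b), σ,
      Real.exp (-(2 * π ^ 2 / |ℓ|)), ?_, ?_, hσ, ?_, (Real.exp_pos _).le, ?_, ?_⟩
    · apply DifferentiableOn.const_mul
      apply ((mm_diff h1).add_const _).clog
      intro z hz
      right
      exact (him z hz).ne'
    · intro z hz w hw h
      have h2 := mul_left_cancel₀ hcne h
      have h3 : mm z1 z + b = mm z1 w + b := by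
        rw [← Complex.exp_log (hne z hz), ← Complex.exp_log (hne w hw), h2]
      exact mm_inj h1 (mem_ball_zero_iff.1 hz) (mem_ball_zero_iff.1 hw) (add_right_cancel h3)
    · intro z hz
      simp only
      rw [hsT z hz, Complex.log_ofReal_mul hμ (hne z hz)]
      have e : ((Real.log μ : ℝ) : ℂ) = σ * (|ℓ| : ℝ) := by rw [← hℓ]; exact_mod_cast hσℓ
      rw [e]
      field_simp
      push_cast
      ring
    · rw [Real.exp_lt_one_iff, neg_lt_zero]; positivity
    · have hre : ∀ z : ℂ, ((2 * π * I / (|ℓ| : ℝ)) * z).re = -(2 * π / |ℓ|) * z.im := by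
        intro z
        have : (2 * π * I / (|ℓ| : ℝ)) * z = ((2 * π / |ℓ| : ℝ) : ℂ) * (I * z) := by
          push_cast; ring
        rw [this, Complex.re_ofReal_mul, Complex.I_mul_re]; ring
      ext w
      constructor
      · rintro ⟨z, hz, rfl⟩
        simp only
        obtain ⟨a1, a2⟩ := harg z hz
        have h3 : 0 < 2 * π / |ℓ| := by positivity
        refine ⟨?_, ?_⟩
        · rw [Complex.norm_exp, Real.exp_lt_exp, hre, Complex.log_im]
          have e : 2 * π ^ 2 / |ℓ| = 2 * π / |ℓ| * π := by ring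
          rw [e]
          nlinarith
        · rw [Complex.norm_exp, Real.exp_lt_one_iff, hre, Complex.log_im]
          nlinarith [mul_pos h3 a1]
      · rintro ⟨hw1, hw2⟩
        have hw3 : 0 < ‖w‖ := (Real.exp_pos _).trans hw1
        have hw0 : w ≠ 0 := norm_pos_iff.1 hw3
        set v : ℂ := -I * ((|ℓ| / (2 * π) : ℝ) : ℂ) * Complex.log w with hv
        have hvim : v.im = -(|ℓ| / (2 * π)) * Real.log ‖w‖ := by
          have e : v = ((|ℓ| / (2 * π) : ℝ) : ℂ) * (-(I * Complex.log w)) := by rw [hv]; ring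
          rw [e, Complex.im_ofReal_mul, Complex.neg_im, Complex.I_mul_im, Complex.log_re]; ring
        have h3 : 0 < |ℓ| / (2 * π) := by positivity
        have hv0 : 0 < v.im := by
          rw [hvim]
          have : Real.log ‖w‖ < 0 := Real.log_neg hw3 hw2
          nlinarith [mul_pos h3 (neg_pos.2 this)]
        have hvπ : v.im < π := by
          rw [hvim]
          have h4 : -(2 * π ^ 2 / |ℓ|) < Real.log ‖w‖ := by
            rw [Real.lt_log_iff_exp_lt hw3]; exact hw1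
          have h5 : |ℓ| / (2 * π) * (2 * π ^ 2 / |ℓ|) = π := by field_simp
          nlinarith [mul_lt_mul_of_pos_left h4 h3]
        have him2 : 0 < (Complex.exp v - b).im := by
          rw [Complex.sub_im, Complex.ofReal_im, sub_zero, Complex.exp_im]
          exact mul_pos (Real.exp_pos _) (Real.sin_pos_of_pos_of_lt_pi hv0 hvπ)
        obtain ⟨z, hz, hzw⟩ := mm_surj h1 him2
        refine ⟨z, mem_ball_zero_iff.2 hz, ?_⟩
        simp only
        rw [hzw, sub_add_cancel, Complex.log_exp (by linarith) hvπ.le]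
        have hπc : (π : ℂ) ≠ 0 := by exact_mod_cast hπ.ne'
        have e : (2 * π * I / (|ℓ| : ℝ)) * v = Complex.log w := by
          rw [hv]
          push_cast
          field_simp
          linear_combination (-Complex.log w) * Complex.I_sq
        rw [e, Complex.exp_log hw0]

/-- uniformization of a periodic simply connected domain -/
theorem unif {D : Set ℂ} (hD : IsOpen D) (hsc : IsSimplyConnected D) (hne : D ≠ univ)
    (hper : ∀ ζ ∈ D, ζ + 2 * π * I ∈ D) (hper' : ∀ ζ ∈ D, ζ - 2 * π * I ∈ D) {a : ℂ} (ha : a ∈ D) :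
    ∃ (rs : ℝ) (Ψ : ℂ → ℂ), 0 ≤ rs ∧ rs < 1 ∧ DifferentiableOn ℂ Ψ D ∧
      (∀ ζ ∈ D, ∀ ζ' ∈ D, Ψ ζ = Ψ ζ' ↔ Complex.exp ζ = Complex.exp ζ') ∧
      Ψ '' D = {w : ℂ | rs < ‖w‖ ∧ ‖w‖ < 1} := by
  obtain ⟨g, φ, hg, hgb, -, -, hφ, hφm, hgφ, hφg⟩ := riemann_inv hD hsc hne ha
  set T : ℂ → ℂ := fun z => φ (g z + 2 * π * I) with hT
  set S : ℂ → ℂ := fun z => φ (g z - 2 * π * I) with hS
  have hgm := hgb.mapsTo
  have hTd : DifferentiableOn ℂ T (ball 0 1) :=
    hφ.comp (hg.add_const _) (fun z hz => hper _ (hgm hz))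
  have hSd : DifferentiableOn ℂ S (ball 0 1) :=
    hφ.comp (hg.sub_const _) (fun z hz => hper' _ (hgm hz))
  have mT : MapsTo T (ball 0 1) (ball 0 1) := fun z hz => hφm (hper _ (hgm hz))
  have mS : MapsTo S (ball 0 1) (ball 0 1) := fun z hz => hφm (hper' _ (hgm hz))
  have ST : ∀ z ∈ ball (0 : ℂ) 1, S (T z) = z := fun z hz => by
    rw [hS, hT]
    simp only
    rw [hgφ _ (hper _ (hgm hz)), add_sub_cancel_right, hφg z hz]
  have TS : ∀ z ∈ ball (0 : ℂ) 1, T (S z) = z := fun z hz => by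
    rw [hS, hT]
    simp only
    rw [hgφ _ (hper' _ (hgm hz)), sub_add_cancel, hφg z hz]
  have h2π : (2 * π * I : ℂ) ≠ 0 := by
    have : (π : ℂ) ≠ 0 := by exact_mod_cast Real.pi_ne_zero
    simp [this]
  have hfix : ∀ z ∈ ball (0 : ℂ) 1, T z ≠ z := by
    intro z hz h
    have h2 : g (T z) = g z + 2 * π * I := hgφ _ (hper _ (hgm hz))
    rw [h] at h2
    apply h2π
    linear_combination -h2
  obtain ⟨Λ, σ, rs, hΛd, hΛi, hσ, hΛT, h0, h1, himg⟩ := exists_Lam hTd hSd mT mS ST TS hfix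
  have hshift : ∀ ζ ∈ D, Λ (φ (ζ + 2 * π * I)) = Λ (φ ζ) + σ * (2 * π * I) := by
    intro ζ hζ
    have := hΛT (φ ζ) (hφm hζ)
    rw [hT] at this
    simp only at this
    rwa [hgφ ζ hζ] at this
  have hshiftn : ∀ n : ℕ, ∀ ζ ∈ D, ζ + n * (2 * π * I) ∈ D ∧
      Λ (φ (ζ + n * (2 * π * I))) = Λ (φ ζ) + n * (σ * (2 * π * I)) := by
    intro n
    induction n with
    | zero => intro ζ hζ; simp [hζ]
    | succ n ih =>
      intro ζ hζ
      obtain ⟨h3, h4⟩ := ih ζ hζ
      have e : ζ + ((n + 1 : ℕ) : ℂ) * (2 * π * I) = (ζ + n * (2 * π * I)) + 2 * π * I := by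
        push_cast; ring
      rw [e]
      refine ⟨hper _ h3, ?_⟩
      rw [hshift _ h3, h4]; push_cast; ring
  have hshiftz : ∀ n : ℤ, ∀ ζ ∈ D, ζ + n * (2 * π * I) ∈ D ∧
      Λ (φ (ζ + n * (2 * π * I))) = Λ (φ ζ) + n * (σ * (2 * π * I)) := by
    intro n ζ hζ
    obtain ⟨m, rfl | rfl⟩ := n.eq_nat_or_neg
    · have := hshiftn m ζ hζ
      exact_mod_cast this
    · -- negative shift
      have hm : ∀ m : ℕ, ζ - m * (2 * π * I) ∈ D := by
        intro m
        induction m with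
        | zero => simp [hζ]
        | succ m ih =>
          have e : ζ - ((m + 1 : ℕ) : ℂ) * (2 * π * I) = (ζ - m * (2 * π * I)) - 2 * π * I := by
            push_cast; ring
          rw [e]; exact hper' _ ih
      have h3 := hshiftn m _ (hm m)
      rw [sub_add_cancel] at h3
      push_cast
      have e : ζ + -(m : ℂ) * (2 * π * I) = ζ - m * (2 * π * I) := by ring
      rw [e]
      refine ⟨hm m, ?_⟩
      rw [h3.2]; ring
  have hinj : ∀ ζ ∈ D, ∀ ζ' ∈ D, Λ (φ ζ) = Λ (φ ζ') → ζ = ζ' := by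
    intro ζ hζ ζ' hζ' h
    have := hΛi (hφm hζ) (hφm hζ') h
    rw [← hgφ ζ hζ, ← hgφ ζ' hζ', this]
  refine ⟨rs, fun ζ => Complex.exp (Λ (φ ζ)), h0, h1, (hΛd.comp hφ hφm).cexp, ?_, ?_⟩
  · intro ζ hζ ζ' hζ'
    constructor
    · intro h
      obtain ⟨n, hn⟩ := Complex.exp_eq_exp_iff_exists_int.1 h
      have hσ2 : (σ : ℂ) * σ = 1 := by
        rcases hσ with rfl | rfl <;> norm_num
      obtain ⟨h3, h4⟩ := hshiftz (n * σ) ζ' hζ'
      have h5 : ζ = ζ' + ((n * σ : ℤ) : ℂ) * (2 * π * I) := by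
        apply hinj ζ hζ _ h3
        rw [h4, hn]; push_cast
        linear_combination (-(n : ℂ) * (2 * π * I)) * hσ2
      exact Complex.exp_eq_exp_iff_exists_int.2 ⟨n * σ, h5⟩
    · intro h
      obtain ⟨n, hn⟩ := Complex.exp_eq_exp_iff_exists_int.1 h
      obtain ⟨h3, h4⟩ := hshiftz n ζ' hζ'
      simp only
      rw [hn, h4]
      apply Complex.exp_eq_exp_iff_exists_int.2
      refine ⟨n * σ, ?_⟩
      push_cast; ring
  · rw [← himg]
    ext w
    constructor
    · rintro ⟨ζ, hζ, rfl⟩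
      exact ⟨φ ζ, hφm hζ, rfl⟩
    · rintro ⟨z, hz, rfl⟩
      refine ⟨g z, hgm hz, ?_⟩
      simp only
      rw [hφg z hz]

end Pool.Agent.H366R3.MB
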