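import Mathlib
import Pool.Agent.H366R3.MB.Unif
import Pool.Agent.H366R3.MB.Map

set_option autoImplicit false

open Set Filter Topology Metric
open scoped ComplexConjugate Real

namespace Pool.Agent.H366R3.MB

open Pool.Agent.H366R3 Pool.Agent.H366R3.ED
open Complex (I)

/-- the lifted target -/
def Dt : Set ℂ := Complex.exp ⁻¹' Ot

lemma Dt_open : IsOpen Dt := Ot_open.preimage Complex.continuous_exp

lemma exp_zt_mem {x : ℂ} (hx : x ∈ SS) : Complex.exp (zt x) ∈ Om :=
  exp_mem_Om.2 ⟨zt_pos hx, zt_lt hx⟩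

lemma KK_mem {x : ℂ} (hx : x ∈ SS) : KK x ∈ Dt := by
  show Complex.exp (KK x) ∈ Ot
  rw [exp_KK hx, ← hm_exp]
  exact ⟨_, exp_zt_mem hx, rfl⟩

lemma SS_add {x : ℂ} (hx : x ∈ SS) (n : ℤ) : x + n * (2 * π * I) ∈ SS := by
  have : (x + n * (2 * π * I)).re = x.re := by simp
  exact ⟨this ▸ hx.1, this ▸ hx.2⟩

lemma exists_SS {z : ℂ} (hz : z ∈ Om) : ∃ x ∈ SS, zt x = Complex.log z := by
  obtain ⟨a, b⟩ := Om_log hz
  refine ⟨(((Complex.log z).re ^ 2 / 2 : ℝ) : ℂ) + (Complex.log z).im * I, ⟨?_, ?_⟩, ?_⟩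
  · simp only [Complex.add_re, Complex.ofReal_re, Complex.mul_re, Complex.I_re, Complex.I_im,
      Complex.ofReal_im]
    have := pow_pos a 2
    linarith
  · simp only [Complex.add_re, Complex.ofReal_re, Complex.mul_re, Complex.I_re, Complex.I_im,
      Complex.ofReal_im]
    nlinarith
  · unfold zt
    have e1 : ((((Complex.log z).re ^ 2 / 2 : ℝ) : ℂ) + (Complex.log z).im * I).re =
      (Complex.log z).re ^ 2 / 2 := by
      simp only [Complex.add_re, Complex.ofReal_re, Complex.mul_re, Complex.I_re, Complex.I_im,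
        Complex.ofReal_im]; ring
    have e2 : ((((Complex.log z).re ^ 2 / 2 : ℝ) : ℂ) + (Complex.log z).im * I).im =
      (Complex.log z).im := by
      simp only [Complex.add_im, Complex.ofReal_re, Complex.mul_im, Complex.I_re, Complex.I_im,
        Complex.ofReal_im]; ring
    rw [e1, e2]
    have e3 : 2 * ((Complex.log z).re ^ 2 / 2) = (Complex.log z).re ^ 2 := by ring
    rw [e3, Real.sqrt_sq a.le, Complex.re_add_im]

lemma KK_surj {ζ : ℂ} (hζ : ζ ∈ Dt) : ∃ x ∈ SS, KK x = ζ := by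
  obtain ⟨z, hz, he⟩ := hζ
  obtain ⟨x, hx, hxz⟩ := exists_SS hz
  have h1 : Complex.exp (KK x) = Complex.exp ζ := by
    rw [exp_KK hx, hxz]; exact he
  obtain ⟨n, hn⟩ := Complex.exp_eq_exp_iff_exists_int.1 h1
  refine ⟨x + ((-n : ℤ) : ℂ) * (2 * π * I), SS_add hx _, ?_⟩
  rw [KK_add, hn]; push_cast; ring

/-- inverse of `KK` -/
noncomputable def JJ : ℂ → ℂ := Function.invFunOn KK SS

lemma JJ_mem {ζ : ℂ} (hζ : ζ ∈ Dt) : JJ ζ ∈ SS := by
  obtain ⟨x, hx, rfl⟩ := KK_surj hζ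
  exact Function.invFunOn_mem ⟨x, hx, rfl⟩

lemma KK_JJ {ζ : ℂ} (hζ : ζ ∈ Dt) : KK (JJ ζ) = ζ := by
  obtain ⟨x, hx, rfl⟩ := KK_surj hζ
  exact Function.invFunOn_eq ⟨x, hx, rfl⟩

lemma JJ_KK {x : ℂ} (hx : x ∈ SS) : JJ (KK x) = x := KK_inj.leftInvOn_invFunOn hx

lemma JJ_cont : ContinuousOn JJ Dt := by
  have : LipschitzOnWith 2 JJ Dt := by
    apply LipschitzOnWith.of_dist_le_mul
    intro x hx y hy
    rw [dist_eq_norm, dist_eq_norm]
    have := KK_antilip (JJ_mem hx) (JJ_mem hy)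
    rw [KK_JJ hx, KK_JJ hy] at this
    exact_mod_cast this
  exact this.continuousOn

lemma Dt_sc : IsSimplyConnected Dt := by
  have hx0 : ((1 / 1024 : ℝ) : ℂ) ∈ SS := by
    constructor
    · rw [Complex.ofReal_re]; norm_num
    · rw [Complex.ofReal_re]; norm_num
  have hc : ContractibleSpace SS := SS_convex.contractibleSpace ⟨_, hx0⟩
  have e : Dt ≃ₜ SS :=
    { toFun := fun ζ => ⟨JJ ζ, JJ_mem ζ.2⟩
      invFun := fun x => ⟨KK x, KK_mem x.2⟩
      left_inv := fun ζ => Subtype.ext (KK_JJ ζ.2)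
      right_inv := fun x => Subtype.ext (JJ_KK x.2)
      continuous_toFun := Continuous.subtype_mk (JJ_cont.domRestrict) _
      continuous_invFun := Continuous.subtype_mk (KK_cont.domRestrict) _ }
  show SimplyConnectedSpace Dt
  exact e.toHomotopyEquiv.simplyConnectedSpace

lemma zero_notMem_Ot : (0 : ℂ) ∉ Ot := by
  rintro ⟨z, hz, h0⟩
  obtain ⟨x, hx, hxz⟩ := exists_SS hz
  have := exp_KK hx
  rw [hxz] at this
  change HH (Complex.log z) = 0 at h0
  rw [h0] at this
  exact Complex.exp_ne_zero _ this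

lemma Ot_bdd : Bornology.IsBounded Ot := by
  rw [Metric.isBounded_iff_subset_closedBall 0]
  refine ⟨2, ?_⟩
  rintro _ ⟨z, hz, rfl⟩
  rw [mem_closedBall_zero_iff]
  obtain ⟨a, b⟩ := Om_log hz
  have h1 := HH_near a b
  have h2 : ‖HH (Complex.log z)‖ = ‖HH (Complex.log z) * Complex.exp (-(Complex.log z).im * I)‖ := by
    have h6 : ‖Complex.exp (-(Complex.log z).im * I)‖ = 1 := by
      have := Complex.norm_exp_ofReal_mul_I (-(Complex.log z).im)
      push_cast at this; exact this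
    rw [norm_mul, h6, mul_one]
  show ‖HH (Complex.log z)‖ ≤ 2
  rw [h2]
  have h3 := norm_add_le (HH (Complex.log z) * Complex.exp (-(Complex.log z).im * I) - 1) 1
  rw [sub_add_cancel, norm_one] at h3
  linarith

lemma exists_psi : ∃ (rs : ℝ) (ψ : ℂ → ℂ), 0 ≤ rs ∧ rs < 1 ∧ DifferentiableOn ℂ ψ Ot ∧
    InjOn ψ Ot ∧ ψ '' Ot = {w : ℂ | rs < ‖w‖ ∧ ‖w‖ < 1} := by
  have hne : Dt ≠ univ := by
    intro h
    have h1 : (1 : ℂ) ∈ Dt := by rw [h]; trivial
    have h2 : ((Real.log 3 : ℝ) : ℂ) ∈ Dt := by rw [h]; trivial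
    have h3 : ‖Complex.exp ((Real.log 3 : ℝ) : ℂ)‖ = 3 := by
      rw [Complex.norm_exp, Complex.ofReal_re, Real.exp_log (by norm_num)]
    obtain ⟨z, hz, he⟩ := h2
    obtain ⟨a, b⟩ := Om_log hz
    have h4 := HH_near a b
    have h5 : ‖HH (Complex.log z)‖ = ‖HH (Complex.log z) * Complex.exp (-(Complex.log z).im * I)‖ := by
      have h6 : ‖Complex.exp (-(Complex.log z).im * I)‖ = 1 := by
        have := Complex.norm_exp_ofReal_mul_I (-(Complex.log z).im)
        push_cast at this; exact this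
      rw [norm_mul, h6, mul_one]
    have h7 := norm_add_le (HH (Complex.log z) * Complex.exp (-(Complex.log z).im * I) - 1) 1
    rw [sub_add_cancel, norm_one, ← h5] at h7
    change HH (Complex.log z) = _ at he
    have h8 : ‖HH (Complex.log z)‖ = 3 := by rw [he, h3]
    rw [h8] at h7
    linarith
  have hx0 : ((1 / 1024 : ℝ) : ℂ) ∈ SS := by
    constructor
    · rw [Complex.ofReal_re]; norm_num
    · rw [Complex.ofReal_re]; norm_num
  have hper : ∀ ζ ∈ Dt, ζ + 2 * π * I ∈ Dt := by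
    intro ζ hζ
    show Complex.exp (ζ + 2 * π * I) ∈ Ot
    rw [Complex.exp_periodic]; exact hζ
  have hper' : ∀ ζ ∈ Dt, ζ - 2 * π * I ∈ Dt := by
    intro ζ hζ
    show Complex.exp (ζ - 2 * π * I) ∈ Ot
    rw [Complex.exp_periodic.sub_eq]; exact hζ
  obtain ⟨rs, Ψ, h0, h1, hd, hiff, himg⟩ := unif Dt_open Dt_sc hne hper hper' (KK_mem hx0)
  have hOne : ∀ w ∈ Ot, w ≠ 0 := fun w hw h => zero_notMem_Ot (h ▸ hw)
  have hlog : ∀ w ∈ Ot, Complex.log w ∈ Dt := fun w hw => by
    show Complex.exp (Complex.log w) ∈ Ot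
    rw [Complex.exp_log (hOne w hw)]; exact hw
  refine ⟨rs, fun w => Ψ (Complex.log w), h0, h1, ?_, ?_, ?_⟩
  · intro w hw
    have hw0 := hOne w hw
    apply DifferentiableAt.differentiableWithinAt
    have e1 : Complex.log w + Complex.log (w / w) = Complex.log w := by
      rw [div_self hw0, Complex.log_one, add_zero]
    have e2 : DifferentiableAt ℂ Ψ (Complex.log w + Complex.log (w / w)) := by
      rw [e1]
      exact hd.differentiableAt (Dt_open.mem_nhds (hlog w hw))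
    have e3 : DifferentiableAt ℂ (fun z => Ψ (Complex.log w + Complex.log (z / w))) w :=
      DifferentiableAt.comp (g := Ψ) (f := fun z => Complex.log w + Complex.log (z / w)) w e2
        (loglin hw0).differentiableAt
    refine e3.congr_of_eventuallyEq ?_
    filter_upwards [Ot_open.mem_nhds hw] with z hz
    have hz0 := hOne z hz
    have e4 : Complex.exp (Complex.log w + Complex.log (z / w)) = z := by
      rw [Complex.exp_add, Complex.exp_log hw0, Complex.exp_log (div_ne_zero hz0 hw0)]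
      field_simp
    apply (hiff _ (hlog z hz) _ _).2
    · rw [e4, Complex.exp_log hz0]
    · show Complex.exp (Complex.log w + Complex.log (z / w)) ∈ Ot
      rw [e4]; exact hz
  · intro w hw z hz h
    have := (hiff _ (hlog w hw) _ (hlog z hz)).1 h
    rwa [Complex.exp_log (hOne w hw), Complex.exp_log (hOne z hz)] at this
  · rw [← himg]
    ext w
    constructor
    · rintro ⟨z, hz, rfl⟩
      exact ⟨_, hlog z hz, rfl⟩
    · rintro ⟨ζ, hζ, rfl⟩
      refine ⟨Complex.exp ζ, hζ, ?_⟩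
      apply (hiff _ (hlog _ hζ) _ hζ).2
      rw [Complex.exp_log (Complex.exp_ne_zero ζ)]

end Pool.Agent.H366R3.MB
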