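import Mathlib
import Pool.Agent.H366R3.MB.Mod2
import Pool.Agent.H366R3.MB.Energy
import Pool.Agent.H366R3.MB.Psi

set_option autoImplicit false

open Set Filter Topology Metric MeasureTheory
open scoped ComplexConjugate Real ENNReal

namespace Pool.Agent.H366R3.MB

open Pool.Agent.H366R3 Pool.Agent.H366R3.ED
open Complex (I)

variable {ψ : ℂ → ℂ} {rs : ℝ}

lemma PsiD.pos (P : PsiD ψ rs) : 0 < rs := by
  rcases P.h0.lt_or_eq with h | h
  · exact h
  · exfalso
    have h1 := bound P (A := Real.exp (-2)) (B := Real.exp (-1)) (by rw [← h]; exact Real.exp_pos _)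
      (by rw [Real.exp_le_exp]; norm_num) (by rw [Real.exp_lt_one_iff]; norm_num)
    rw [Real.log_exp, Real.log_exp] at h1
    norm_num at h1

lemma PsiD.log_le (P : PsiD ψ rs) : -Real.log rs ≤ (1 - 1 / 512) * (1 / 512) := by
  have h0 := P.pos
  by_contra hcon
  rw [not_le] at hcon
  obtain ⟨M, hM⟩ : ∃ M : ℝ, M = (1 - 1 / 512) * (1 / 512) := ⟨_, rfl⟩
  rw [← hM] at hcon
  have hM0 : 0 < M := by rw [hM]; norm_num
  obtain ⟨ε, hε⟩ : ∃ ε : ℝ, ε = (-Real.log rs - M) / 4 := ⟨_, rfl⟩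
  have hε0 : 0 < ε := by rw [hε]; linarith
  have h1 := bound P (A := Real.exp (Real.log rs + ε)) (B := Real.exp (-ε))
    (by nth_rewrite 1 [← Real.exp_log h0]; rw [Real.exp_lt_exp]; linarith)
    (by rw [Real.exp_le_exp]; linarith) (by rw [Real.exp_lt_one_iff]; linarith)
  rw [Real.log_exp, Real.log_exp, ← hM] at h1
  linarith

lemma log_cosh_gt : (1 - 1 / 512) * (1 / 512) < Real.log (Real.cosh (1 / 16)) := by
  have h1 : (1 : ℝ) + (1 / 16) ^ 2 / 2 ≤ Real.cosh (1 / 16) := by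
    have e1 : (1 / 16 : ℝ) = 2 * (1 / 32) := by norm_num
    have e2 : Real.cosh (1 / 16) = 1 + 2 * Real.sinh (1 / 32) ^ 2 := by
      rw [e1, Real.cosh_two_mul, Real.cosh_sq]; ring
    have e3 : (1 / 32 : ℝ) ≤ Real.sinh (1 / 32) := Real.self_le_sinh_iff.2 (by norm_num)
    rw [e2]
    nlinarith
  have h2 : Real.log (513 / 512) ≤ Real.log (Real.cosh (1 / 16)) := by
    apply Real.log_le_log (by norm_num)
    refine le_trans ?_ h1
    norm_num
  have h3 := Real.one_sub_inv_le_log_of_pos (x := (513 / 512 : ℝ)) (by norm_num)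
  have h4 : ((1 : ℝ) - 1 / 512) * (1 / 512) < 1 - (513 / 512 : ℝ)⁻¹ := by norm_num
  linarith

/-- the conformal map of the source -/
noncomputable def phi (z : ℂ) : ℂ := ((Real.exp (-(1 / 16)) : ℝ) : ℂ) * z

lemma phi_norm (z : ℂ) : ‖phi z‖ = Real.exp (-(1 / 16)) * ‖z‖ := by
  unfold phi
  rw [norm_mul, Complex.norm_real, Real.norm_of_nonneg (Real.exp_pos _).le]

lemma phi_diff : DifferentiableOn ℂ phi Om := by
  unfold phi; fun_prop

lemma phi_inj : InjOn phi Om := by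
  intro z _ w _ h
  unfold phi at h
  exact mul_left_cancel₀ (by exact_mod_cast (Real.exp_pos _).ne') h

lemma phi_img : phi '' Om = {z : ℂ | Real.exp (-(1 / 16)) < ‖z‖ ∧ ‖z‖ < 1} := by
  have he : Real.exp (-(1 / 16)) * Real.exp (1 / 16) = 1 := by
    rw [← Real.exp_add]; norm_num
  have hp := Real.exp_pos (-(1 / 16))
  ext w
  constructor
  · rintro ⟨z, hz, rfl⟩
    refine ⟨?_, ?_⟩
    · rw [phi_norm]
      nlinarith [mul_lt_mul_of_pos_left hz.1 hp]
    · rw [phi_norm]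
      have h3 := mul_lt_mul_of_pos_left hz.2 hp
      linarith
  · rintro ⟨h1, h2⟩
    have hn : ‖((Real.exp (1 / 16) : ℝ) : ℂ) * w‖ = Real.exp (1 / 16) * ‖w‖ := by
      rw [norm_mul, Complex.norm_real, Real.norm_of_nonneg (Real.exp_pos _).le]
    have hq := Real.exp_pos (1 / 16)
    refine ⟨((Real.exp (1 / 16) : ℝ) : ℂ) * w, ⟨?_, ?_⟩, ?_⟩
    · rw [hn]
      have h3 := mul_lt_mul_of_pos_left h1 hq
      linarith
    · rw [hn]
      nlinarith [mul_lt_mul_of_pos_left h2 hq]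
    · unfold phi
      rw [← mul_assoc, ← Complex.ofReal_mul, he, Complex.ofReal_one, one_mul]

lemma Om_bdd : Bornology.IsBounded Om := by
  rw [Metric.isBounded_iff_subset_closedBall 0]
  refine ⟨Real.exp (1 / 16), fun z hz => ?_⟩
  rw [mem_closedBall_zero_iff]; exact hz.2.le

end Pool.Agent.H366R3.MB
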